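import Mathlib

set_option autoImplicit false

/-!
# Chord diagrams and arrow diagrams on an oriented interval (MP_c2e4b2_gt)

A chord diagram of degree `d` is a list of `2 d` labels in which every label occurs exactly twice
(the labels of the end points in their order on the interval), up to relabelling. In an arrow
diagram `(a, false)` is the tail and `(a, true)` is the head of the arrow with label `a`.
-/

namespace Pool.Agent.ARD

/-- `w` is a chord diagram of degree `d`. -/
def IsC (d : ℕ) (w : List ℕ) : Prop := w.length = 2 * d ∧ ∀ a ∈ w, w.count a = 2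

/-- `l` is an arrow diagram of degree `d`. -/
def IsA (d : ℕ) (l : List (ℕ × Bool)) : Prop :=
  l.length = 2 * d ∧ ∀ x ∈ l, l.count (x.1, false) = 1 ∧ l.count (x.1, true) = 1

/-- A diagram with three short arcs cut out: `Sum.inl m` is the place of the arc `m`. `fill c f`
puts the word `f m` on the arc `m`. -/
def fill {α : Type*} (c : List (Fin 3 ⊕ α)) (f : Fin 3 → List α) : List α :=
  c.flatMap (Sum.elim f (fun x => [x]))

/-- Every arc occurs exactly once. -/
def IsCtx {α : Type*} (c : List (Fin 3 ⊕ α)) : Prop :=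
  ∀ m : Fin 3, (c.filterMap Sum.getLeft?).count m = 1

/-- The product `t_ij t_kl` of two chords with the labels `a` and `b`, on the arc `m`. -/
def tt (i j : Fin 3) (a : ℕ) (k l : Fin 3) (b : ℕ) (m : Fin 3) : List ℕ :=
  (if m = i ∨ m = j then [a] else []) ++ (if m = k ∨ m = l then [b] else [])

/-- The product `r_ij r_kl` of two arrows with the labels `a` and `b`, on the arc `m`. -/
def rr (i j : Fin 3) (a : ℕ) (k l : Fin 3) (b : ℕ) (m : Fin 3) : List (ℕ × Bool) :=
  (if m = i then [(a, false)] else []) ++ (if m = j then [(a, true)] else []) ++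
    ((if m = k then [(b, false)] else []) ++ (if m = l then [(b, true)] else []))

/-- `[t_ij, t_ik + t_jk]` in the diagram `c`. -/
noncomputable def fourT (c : List (Fin 3 ⊕ ℕ)) (i j k : Fin 3) (a b : ℕ) : List ℕ →₀ ℚ :=
  Finsupp.single (fill c (tt i j a i k b)) 1 - Finsupp.single (fill c (tt i k b i j a)) 1 +
    (Finsupp.single (fill c (tt i j a j k b)) 1 - Finsupp.single (fill c (tt j k b i j a)) 1)

/-- `[r_ij, r_ik] + [r_ij, r_jk] + [r_ik, r_jk]` in the diagram `c`. -/
noncomputable def sixT (c : List (Fin 3 ⊕ (ℕ × Bool))) (i j k : Fin 3) (a b : ℕ) :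
    List (ℕ × Bool) →₀ ℚ :=
  Finsupp.single (fill c (rr i j a i k b)) 1 - Finsupp.single (fill c (rr i k b i j a)) 1 +
    (Finsupp.single (fill c (rr i j a j k b)) 1 - Finsupp.single (fill c (rr j k b i j a)) 1) +
    (Finsupp.single (fill c (rr i k a j k b)) 1 - Finsupp.single (fill c (rr j k b i k a)) 1)

/-- The 4T relations in degree `d`, with the identification of relabelled words:
`A(I)^(d)` is the space of words `w` with `IsC d w` modulo `rel4 d`. -/
noncomputable def rel4 (d : ℕ) : Submodule ℚ (List ℕ →₀ ℚ) :=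
  Submodule.span ℚ
    ({x | ∃ (w : List ℕ) (σ : ℕ → ℕ), IsC d w ∧ Function.Injective σ ∧
        x = Finsupp.single w 1 - Finsupp.single (w.map σ) 1} ∪
     {x | ∃ (c : List (Fin 3 ⊕ ℕ)) (i j k : Fin 3) (a b : ℕ), i ≠ j ∧ i ≠ k ∧ j ≠ k ∧ IsCtx c ∧
        IsC d (fill c (tt i j a i k b)) ∧ x = fourT c i j k a b})

/-- The 6T relations in degree `d`, with the identification of relabelled words. -/
noncomputable def rel6 (d : ℕ) : Submodule ℚ (List (ℕ × Bool) →₀ ℚ) :=
  Submodule.span ℚ
    ({x | ∃ (l : List (ℕ × Bool)) (σ : ℕ → ℕ), IsA d l ∧ Function.Injective σ ∧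
        x = Finsupp.single l 1 - Finsupp.single (l.map (Prod.map σ id)) 1} ∪
     {x | ∃ (c : List (Fin 3 ⊕ (ℕ × Bool))) (i j k : Fin 3) (a b : ℕ),
        i ≠ j ∧ i ≠ k ∧ j ≠ k ∧ IsCtx c ∧ IsA d (fill c (rr i j a i k b)) ∧
        x = sixT c i j k a b})

/-- Reverse the arrows whose label is in `T`. -/
def flip (T : Finset ℕ) (l : List (ℕ × Bool)) : List (ℕ × Bool) :=
  l.map (fun p => (p.1, xor p.2 (decide (p.1 ∈ T))))

/-- Orient every chord from its first end point to its second. -/
def base (w : List ℕ) : List (ℕ × Bool) := w.mapIdx (fun n a => (a, decide (a ∈ w.take n)))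

/-- The map `φ`: a chord diagram goes to the sum of its `2^d` oriented versions. -/
noncomputable def phi : (List ℕ →₀ ℚ) →ₗ[ℚ] (List (ℕ × Bool) →₀ ℚ) :=
  Finsupp.linearCombination ℚ (fun w : List ℕ =>
    ∑ T ∈ w.toFinset.powerset, Finsupp.single (flip T (base w)) (1 : ℚ))

/-- The labels of the arrows of a diagram with three arcs cut out. -/
def labels (c : List (Fin 3 ⊕ (ℕ × Bool))) : Finset ℕ :=
  ((c.filterMap Sum.getRight?).map Prod.fst).toFinset

/-- Sum over all directions of the arrows with labels in `U`. -/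
noncomputable def sym (U : Finset ℕ) (x : List (ℕ × Bool) →₀ ℚ) : List (ℕ × Bool) →₀ ℚ :=
  ∑ T ∈ U.powerset, Finsupp.mapDomain (flip T) x

/-- The 6T relations summed over all directions of the fixed arrows, except of the one with the
label `g` (which may be absent), with the identification of relabelled words. -/
noncomputable def rel6one (d : ℕ) : Submodule ℚ (List (ℕ × Bool) →₀ ℚ) :=
  Submodule.span ℚ
    ({x | ∃ (l : List (ℕ × Bool)) (σ : ℕ → ℕ), IsA d l ∧ Function.Injective σ ∧
        x = Finsupp.single l 1 - Finsupp.single (l.map (Prod.map σ id)) 1} ∪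
     {x | ∃ (c : List (Fin 3 ⊕ (ℕ × Bool))) (i j k : Fin 3) (a b g : ℕ),
        i ≠ j ∧ i ≠ k ∧ j ≠ k ∧ IsCtx c ∧ IsA d (fill c (rr i j a i k b)) ∧
        x = sym ((labels c).erase g) (sixT c i j k a b)})

end Pool.Agent.ARD
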