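import Mathlib
import Pool.Agent.ARD.Defs

set_option autoImplicit false

/-!
# Isolated chords and the two questions (MP_c2e4b2_gt)
-/

namespace Pool.Agent.ARD

/-- The span of the chord diagrams of degree `d` with an isolated chord. -/
noncomputable def fi4 (d : ℕ) : Submodule ℚ (List ℕ →₀ ℚ) :=
  Submodule.span ℚ {x | ∃ (A B : List ℕ) (a : ℕ), IsC d (A ++ a :: a :: B) ∧
    x = Finsupp.single (A ++ a :: a :: B) 1}

/-- `φ_d` is injective. -/
def Inj (d : ℕ) : Prop :=
  ∀ x ∈ Finsupp.supported ℚ ℚ {w : List ℕ | IsC d w}, phi x ∈ rel6 d → x ∈ rel4 d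

/-- The kernel of `φ_d` lies in the span of the diagrams with an isolated chord. -/
def KerFI (d : ℕ) : Prop :=
  ∀ x ∈ Finsupp.supported ℚ ℚ {w : List ℕ | IsC d w}, phi x ∈ rel6 d → x ∈ rel4 d ⊔ fi4 d

end Pool.Agent.ARD
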