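import Mathlib
import Pool.Agent.ARD.Defs

set_option autoImplicit false

namespace Pool.Agent.ARD

/-- Weight systems, as functions on all words. -/
structure WS (w : List ℕ → ℚ) : Prop where
  relabel : ∀ (l : List ℕ) (σ : ℕ → ℕ), Function.Injective σ → w (l.map σ) = w l
  four : ∀ (c : List (Fin 3 ⊕ ℕ)) (i j k : Fin 3) (a b : ℕ), i ≠ j → i ≠ k → j ≠ k → IsCtx c →
    w (fill c (tt i j a i k b)) - w (fill c (tt i k b i j a)) +
      (w (fill c (tt i j a j k b)) - w (fill c (tt j k b i j a))) = 0

section gen

variable {β : Type*} [DecidableEq β]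

/-- Values at three symbols. -/
def upd (s : β → List ℕ) (u v z : β) (p q r : List ℕ) (x : β) : List ℕ :=
  if x = u then p else if x = v then q else if x = z then r else s x

lemma count_flatMap_one (c : List β) (F : β → List (Fin 3 ⊕ ℕ)) (u : β) (m : Fin 3)
    (h : ∀ x, ((F x).filterMap Sum.getLeft?).count m = if x = u then 1 else 0) :
    ((c.flatMap F).filterMap Sum.getLeft?).count m = c.countP (fun x => decide (x = u)) := by
  induction c with
  | nil => simp
  | cons x c ih =>
    rw [List.flatMap_cons, List.filterMap_append, List.count_append, ih, h x, List.countP_cons]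
    by_cases hx : x = u
    · simp [hx]; ring
    · simp [hx]

/-- The 4T relation at three arbitrary places of a word. -/
lemma WS.gen0 {w : List ℕ → ℚ} (hw : WS w) (c : List β) (s : β → List ℕ) (u v z : β)
    (huv : u ≠ v) (huz : u ≠ z) (hvz : v ≠ z) (hu : c.countP (fun x => decide (x = u)) = 1)
    (hv : c.countP (fun x => decide (x = v)) = 1) (hz : c.countP (fun x => decide (x = z)) = 1)
    (a b : ℕ) :
    w (c.flatMap (upd s u v z [a, b] [a] [b])) - w (c.flatMap (upd s u v z [b, a] [a] [b])) +
      (w (c.flatMap (upd s u v z [a] [a, b] [b])) - w (c.flatMap (upd s u v z [a] [b, a] [b])))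
      = 0 := by
  set F : β → List (Fin 3 ⊕ ℕ) := fun x => if x = u then [Sum.inl 0] else
    if x = v then [Sum.inl 1] else if x = z then [Sum.inl 2] else (s x).map Sum.inr with hF
  have key : ∀ (f : Fin 3 → List ℕ) (p q r : List ℕ), f 0 = p → f 1 = q → f 2 = r →
      fill (c.flatMap F) f = c.flatMap (upd s u v z p q r) := by
    intro f p q r h0 h1 h2
    unfold fill
    rw [List.flatMap_assoc]
    congr 1
    funext x
    simp only [hF, upd]
    by_cases h : x = u
    · simp [h, h0]
    · by_cases h' : x = v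
      · subst h'; simp [h, h1]
      · by_cases h'' : x = z
        · subst h''; simp [h, h', h2]
        · simp only [h, h', h'', if_false]
          rw [List.flatMap_map]
          simp
  have hctx : IsCtx (c.flatMap F) := by
    intro m
    have hz3 : m = 0 ∨ m = 1 ∨ m = 2 := by
      fin_cases m <;> simp
    have hcount : ∀ (t : List ℕ) (m : Fin 3),
        ((t.map Sum.inr : List (Fin 3 ⊕ ℕ)).filterMap Sum.getLeft?).count m = 0 := by
      intro t m
      rw [List.count_eq_zero]
      simp
    rcases hz3 with h | h | h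
    · subst h
      rw [← hu]
      apply count_flatMap_one
      intro x
      simp only [hF]
      by_cases h : x = u
      · subst h; simp [huv, huz]
      · by_cases h' : x = v
        · subst h'; simp [huv.symm, hvz]
        · by_cases h'' : x = z
          · subst h''; simp [huz.symm, hvz.symm]
          · simp only [h, h', h'', if_false, hcount]
    · subst h
      rw [← hv]
      apply count_flatMap_one
      intro x
      simp only [hF]
      by_cases h : x = u
      · subst h; simp [huv, huz]
      · by_cases h' : x = v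
        · subst h'; simp [huv.symm, hvz]
        · by_cases h'' : x = z
          · subst h''; simp [huz.symm, hvz.symm]
          · simp only [h, h', h'', if_false, hcount]
    · subst h
      rw [← hz]
      apply count_flatMap_one
      intro x
      simp only [hF]
      by_cases h : x = u
      · subst h; simp [huv, huz]
      · by_cases h' : x = v
        · subst h'; simp [huv.symm, hvz]
        · by_cases h'' : x = z
          · subst h''; simp [huz.symm, hvz.symm]
          · simp only [h, h', h'', if_false, hcount]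
  have e1 := key (tt 0 1 a 0 2 b) [a, b] [a] [b] (by simp [tt]) (by simp [tt]) (by simp [tt])
  have e2 := key (tt 0 2 b 0 1 a) [b, a] [a] [b] (by simp [tt]) (by simp [tt]) (by simp [tt])
  have e3 := key (tt 0 1 a 1 2 b) [a] [a, b] [b] (by simp [tt]) (by simp [tt]) (by simp [tt])
  have e4 := key (tt 1 2 b 0 1 a) [a] [b, a] [b] (by simp [tt]) (by simp [tt]) (by simp [tt])
  have := hw.four (c.flatMap F) 0 1 2 a b (by decide) (by decide) (by decide) hctx
  rw [e1, e2, e3, e4] at this
  exact this

/-- The 4T relation at three arbitrary places of a word, for four substitutions. -/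
lemma WS.gen {w : List ℕ → ℚ} (hw : WS w) (c : List β) (F1 F2 F3 F4 : β → List ℕ) (u v z : β)
    (huv : u ≠ v) (huz : u ≠ z) (hvz : v ≠ z) (hu : c.countP (fun x => decide (x = u)) = 1)
    (hv : c.countP (fun x => decide (x = v)) = 1) (hz : c.countP (fun x => decide (x = z)) = 1)
    (a b : ℕ)
    (h : ∀ t, t ≠ u → t ≠ v → t ≠ z → F2 t = F1 t ∧ F3 t = F1 t ∧ F4 t = F1 t)
    (h1 : F1 u = [a, b] ∧ F1 v = [a] ∧ F1 z = [b]) (h2 : F2 u = [b, a] ∧ F2 v = [a] ∧ F2 z = [b])
    (h3 : F3 u = [a] ∧ F3 v = [a, b] ∧ F3 z = [b])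
    (h4 : F4 u = [a] ∧ F4 v = [b, a] ∧ F4 z = [b]) :
    w (c.flatMap F1) - w (c.flatMap F2) + (w (c.flatMap F3) - w (c.flatMap F4)) = 0 := by
  have key : ∀ (F : β → List ℕ) (p q r : List ℕ), (∀ t, t ≠ u → t ≠ v → t ≠ z → F t = F1 t) →
      F u = p → F v = q → F z = r → F = upd F1 u v z p q r := by
    intro F p q r hF hp hq hr
    funext t
    simp only [upd]
    by_cases e1 : t = u
    · simp [e1, hp]
    · by_cases e2 : t = v
      · subst e2; simp [e1, hq]
      · by_cases e3 : t = z
        · subst e3; simp [e1, e2, hr]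
        · simp [e1, e2, e3, hF t e1 e2 e3]
  have g := hw.gen0 c F1 u v z huv huz hvz hu hv hz a b
  rw [← key F1 [a, b] [a] [b] (fun _ _ _ _ => rfl) h1.1 h1.2.1 h1.2.2,
    ← key F2 [b, a] [a] [b] (fun t a1 a2 a3 => (h t a1 a2 a3).1) h2.1 h2.2.1 h2.2.2,
    ← key F3 [a] [a, b] [b] (fun t a1 a2 a3 => (h t a1 a2 a3).2.1) h3.1 h3.2.1 h3.2.2,
    ← key F4 [a] [b, a] [b] (fun t a1 a2 a3 => (h t a1 a2 a3).2.2) h4.1 h4.2.1 h4.2.2] at g
  exact g

end gen

/-- Join tail with tail and head with head. -/
def rho1 (e f : ℕ) (p : ℕ × Bool) : ℕ :=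
  if p.1 = e ∨ p.1 = f then (if p.2 then f else e) else p.1

/-- Join tail with head and head with tail. -/
def rho2 (e f : ℕ) (p : ℕ × Bool) : ℕ :=
  if p.1 = e then (if p.2 then f else e) else if p.1 = f then (if p.2 then e else f) else p.1

/-- The difference of the two reconnections of the arrows `e` and `f`. -/
def Dw (w : List ℕ → ℚ) (e f : ℕ) (l : List (ℕ × Bool)) : ℚ :=
  w (l.map (rho1 e f)) - w (l.map (rho2 e f))

abbrev Sym := Fin 3 ⊕ (ℕ × Bool)

/-- Words on five special places. -/
def Q5 (i j k : Fin 3) (g : ℕ) (p q r X Y : List ℕ) (t : Sym) : List ℕ :=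
  if t = Sum.inl i then p else if t = Sum.inl j then q else if t = Sum.inl k then r else
    if t = Sum.inr (g, false) then X else if t = Sum.inr (g, true) then Y else
      Sum.elim (fun _ => []) (fun x => [x.1]) t

lemma word_eq (c : List Sym) (f : Fin 3 → List (ℕ × Bool)) (ρ : ℕ × Bool → ℕ)
    (i j k : Fin 3) (hijk : ∀ m : Fin 3, m = i ∨ m = j ∨ m = k) (hij : i ≠ j) (hik : i ≠ k)
    (hjk : j ≠ k) (g : ℕ) (p q r X Y : List ℕ) (hp : (f i).map ρ = p) (hq : (f j).map ρ = q)
    (hr : (f k).map ρ = r) (hX : Sum.inr (g, false) ∈ c → [ρ (g, false)] = X)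
    (hY : Sum.inr (g, true) ∈ c → [ρ (g, true)] = Y)
    (hρ : ∀ x : ℕ × Bool, Sum.inr x ∈ c → x.1 ≠ g → ρ x = x.1) :
    (fill c f).map ρ = c.flatMap (Q5 i j k g p q r X Y) := by
  unfold fill
  rw [List.map_flatMap]
  apply List.flatMap_congr
  rintro (m | x) hx
  · rcases hijk m with h | h | h
    · subst h; simp [Q5, hp]
    · subst h; simp [Q5, hq, hij.symm]
    · subst h; simp [Q5, hr, hik.symm, hjk.symm]
  · by_cases h1 : x = (g, false)
    · subst h1; simp [Q5, ← hX hx]
    · by_cases h2 : x = (g, true)
      · subst h2; simp [Q5, ← hY hx]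
      · have h3 : x.1 ≠ g := by
          rintro rfl
          rcases x with ⟨x1, x2⟩
          cases x2
          · exact h1 rfl
          · exact h2 rfl
        simp [Q5, h1, h2, hρ x hx h3]

lemma countP_inl (c : List Sym) (hc : IsCtx c) (m : Fin 3) :
    c.countP (fun x => decide (x = Sum.inl m)) = 1 := by
  rw [← hc m]
  clear hc
  induction c with
  | nil => simp
  | cons x c ih =>
    rcases x with n | x
    · rw [List.countP_cons, ih]
      by_cases h : n = m
      · simp [h]
      · simp [h]
    · rw [List.countP_cons, ih]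
      simp

lemma swapRel {w : List ℕ → ℚ} (hw : WS w) (σ : Equiv.Perm ℕ) (c : List Sym) (F G : Sym → List ℕ)
    (h : ∀ t ∈ c, (F t).map σ = G t) : w (c.flatMap G) = w (c.flatMap F) := by
  rw [← hw.relabel (c.flatMap F) σ σ.injective, List.map_flatMap]
  congr 1
  exact (List.flatMap_congr h).symm

end Pool.Agent.ARD
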