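import Mathlib
import Pool.Agent.ARD.First

set_option autoImplicit false

namespace Pool.Agent.ARD

/-- The data of a 6T relation. -/
structure SixData (c : List Sym) (i j k : Fin 3) (a b : ℕ) : Prop where
  ctx : IsCtx c
  hij : i ≠ j
  hik : i ≠ k
  hjk : j ≠ k
  ab : a ≠ b
  na : ∀ x : ℕ × Bool, Sum.inr x ∈ c → x.1 ≠ a
  nb : ∀ x : ℕ × Bool, Sum.inr x ∈ c → x.1 ≠ b

lemma SixData.all {c : List Sym} {i j k : Fin 3} {a b : ℕ} (h : SixData c i j k a b) (m : Fin 3) :
    m = i ∨ m = j ∨ m = k := by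
  have := h.hij; have := h.hik; have := h.hjk
  omega

/-- The pair of the two moving arrows. -/
lemma six_pair {w : List ℕ → ℚ} (hw : WS w) {c : List Sym} {i j k : Fin 3} {a b : ℕ}
    (h : SixData c i j k a b) :
    (w ((fill c (rr i j a i k b)).map Prod.fst) - w ((fill c (rr i k b i j a)).map Prod.fst) +
      (w ((fill c (rr i j a j k b)).map Prod.fst) - w ((fill c (rr j k b i j a)).map Prod.fst)) +
      (w ((fill c (rr i k a j k b)).map Prod.fst) - w ((fill c (rr j k b i k a)).map Prod.fst))) =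
    1 / 3 * (Dw w a b (fill c (rr i j a i k b)) - Dw w a b (fill c (rr i k b i j a)) +
      (Dw w a b (fill c (rr i j a j k b)) - Dw w a b (fill c (rr j k b i j a))) +
      (Dw w a b (fill c (rr i k a j k b)) - Dw w a b (fill c (rr j k b i k a)))) := by
  obtain ⟨hc, hij, hik, hjk, hab, na, nb⟩ := h
  have hall := SixData.all (c := c) (a := a) (b := b) ⟨hc, hij, hik, hjk, hab, na, nb⟩
  -- a label which does not occur
  set g : ℕ := (c.map (fun t => Sum.elim (fun _ => 0) Prod.fst t)).sum + a + b + 1 with hg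
  have hle : ∀ x : ℕ × Bool, Sum.inr x ∈ c → x.1 ≤
      (c.map (fun t => Sum.elim (fun _ => 0) Prod.fst t)).sum := by
    intro x hx
    have := List.single_le_sum (l := c.map (fun t : Sym => Sum.elim (fun _ => 0) Prod.fst t))
      (by intro y _; exact Nat.zero_le y) x.1 (by
        rw [List.mem_map]; exact ⟨Sum.inr x, hx, rfl⟩)
    exact this
  have hgc : ∀ x : ℕ × Bool, Sum.inr x ∈ c → x.1 ≠ g := by
    intro x hx; have := hle x hx; omega
  set W : List ℕ → List ℕ → List ℕ → ℚ := fun p q r => w (c.flatMap (Q5 i j k g p q r [] [])) with hW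
  have hfst : ∀ (f : Fin 3 → List (ℕ × Bool)) (p q r : List ℕ), (f i).map Prod.fst = p →
      (f j).map Prod.fst = q → (f k).map Prod.fst = r →
      w ((fill c f).map Prod.fst) = W p q r := by
    intro f p q r hp hq hr
    rw [hW, word_eq c f Prod.fst i j k hall hij hik hjk g p q r [] [] hp hq hr
      (fun h => absurd rfl (hgc _ h)) (fun h => absurd rfl (hgc _ h)) (fun _ _ _ => rfl)]
  have h1 : ∀ (f : Fin 3 → List (ℕ × Bool)) (p q r : List ℕ), (f i).map (rho1 a b) = p →
      (f j).map (rho1 a b) = q → (f k).map (rho1 a b) = r →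
      w ((fill c f).map (rho1 a b)) = W p q r := by
    intro f p q r hp hq hr
    rw [hW, word_eq c f (rho1 a b) i j k hall hij hik hjk g p q r [] [] hp hq hr
      (fun h => absurd rfl (hgc _ h)) (fun h => absurd rfl (hgc _ h))
      (fun x hx _ => by simp [rho1, na x hx, nb x hx])]
  have h2 : ∀ (f : Fin 3 → List (ℕ × Bool)) (p q r : List ℕ), (f i).map (rho2 a b) = p →
      (f j).map (rho2 a b) = q → (f k).map (rho2 a b) = r →
      w ((fill c f).map (rho2 a b)) = W p q r := by
    intro f p q r hp hq hr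
    rw [hW, word_eq c f (rho2 a b) i j k hall hij hik hjk g p q r [] [] hp hq hr
      (fun h => absurd rfl (hgc _ h)) (fun h => absurd rfl (hgc _ h))
      (fun x hx _ => by simp [rho2, na x hx, nb x hx])]
  have hji := hij.symm; have hki := hik.symm; have hkj := hjk.symm; have hba := hab.symm
  rw [hfst (rr i j a i k b) [a, b] [a] [b] (by simp [rr, *]) (by simp [rr, *]) (by simp [rr, *]),
    hfst (rr i k b i j a) [b, a] [a] [b] (by simp [rr, *]) (by simp [rr, *]) (by simp [rr, *]),
    hfst (rr i j a j k b) [a] [a, b] [b] (by simp [rr, *]) (by simp [rr, *]) (by simp [rr, *]),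
    hfst (rr j k b i j a) [a] [b, a] [b] (by simp [rr, *]) (by simp [rr, *]) (by simp [rr, *]),
    hfst (rr i k a j k b) [a] [b] [a, b] (by simp [rr, *]) (by simp [rr, *]) (by simp [rr, *]),
    hfst (rr j k b i k a) [a] [b] [b, a] (by simp [rr, *]) (by simp [rr, *]) (by simp [rr, *])]
  simp only [Dw]
  rw [h1 (rr i j a i k b) [a, a] [b] [b] (by simp [rr, rho1, *]) (by simp [rr, rho1, *])
      (by simp [rr, rho1, *]),
    h2 (rr i j a i k b) [a, b] [b] [a] (by simp [rr, rho2, *]) (by simp [rr, rho2, *])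
      (by simp [rr, rho2, *]),
    h1 (rr i k b i j a) [a, a] [b] [b] (by simp [rr, rho1, *]) (by simp [rr, rho1, *])
      (by simp [rr, rho1, *]),
    h2 (rr i k b i j a) [b, a] [b] [a] (by simp [rr, rho2, *]) (by simp [rr, rho2, *])
      (by simp [rr, rho2, *]),
    h1 (rr i j a j k b) [a] [b, a] [b] (by simp [rr, rho1, *]) (by simp [rr, rho1, *])
      (by simp [rr, rho1, *]),
    h2 (rr i j a j k b) [a] [b, b] [a] (by simp [rr, rho2, *]) (by simp [rr, rho2, *])
      (by simp [rr, rho2, *]),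
    h1 (rr j k b i j a) [a] [a, b] [b] (by simp [rr, rho1, *]) (by simp [rr, rho1, *])
      (by simp [rr, rho1, *]),
    h2 (rr j k b i j a) [a] [b, b] [a] (by simp [rr, rho2, *]) (by simp [rr, rho2, *])
      (by simp [rr, rho2, *]),
    h1 (rr i k a j k b) [a] [a] [b, b] (by simp [rr, rho1, *]) (by simp [rr, rho1, *])
      (by simp [rr, rho1, *]),
    h2 (rr i k a j k b) [a] [b] [b, a] (by simp [rr, rho2, *]) (by simp [rr, rho2, *])
      (by simp [rr, rho2, *]),
    h1 (rr j k b i k a) [a] [a] [b, b] (by simp [rr, rho1, *]) (by simp [rr, rho1, *])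
      (by simp [rr, rho1, *]),
    h2 (rr j k b i k a) [a] [b] [a, b] (by simp [rr, rho2, *]) (by simp [rr, rho2, *])
      (by simp [rr, rho2, *])]
  have E1 : W [a, b] [a] [b] - W [b, a] [a] [b] + (W [a] [a, b] [b] - W [a] [b, a] [b]) = 0 := by
    refine hw.gen c _ _ _ _ (Sum.inl i) (Sum.inl j) (Sum.inl k) (by simpa using hij)
      (by simpa using hik) (by simpa using hjk) (countP_inl c hc i) (countP_inl c hc j)
      (countP_inl c hc k) a b ?_ ?_ ?_ ?_ ?_
    · intro t t1 t2 t3; simp [Q5, t1, t2, t3]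
    all_goals simp [Q5, hji, hki, hkj]
  have E2 : W [a, b] [b] [a] - W [b, a] [b] [a] + (W [a] [b] [a, b] - W [a] [b] [b, a]) = 0 := by
    refine hw.gen c _ _ _ _ (Sum.inl i) (Sum.inl k) (Sum.inl j) (by simpa using hik)
      (by simpa using hij) (by simpa using hkj) (countP_inl c hc i) (countP_inl c hc k)
      (countP_inl c hc j) a b ?_ ?_ ?_ ?_ ?_
    · intro t t1 t2 t3; simp [Q5, t1, t2, t3]
    all_goals simp [Q5, hji, hki, hkj]
  have hswap : ∀ t ∈ c, t ≠ Sum.inl i → t ≠ Sum.inl j → t ≠ Sum.inl k → ∀ p q r : List ℕ,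
      (Q5 i j k g p q r [] [] t).map (Equiv.swap a b) = Q5 i j k g p q r [] [] t := by
    rintro (m | x) ht t1 t2 t3 p q r
    · simp [Q5, t1, t2, t3]
    · have hxg := hgc x ht
      have e1 : x ≠ (g, false) := by rintro rfl; exact hxg rfl
      have e2 : x ≠ (g, true) := by rintro rfl; exact hxg rfl
      simp only [Q5]
      simp [e1, e2, Equiv.swap_apply_of_ne_of_ne (na x ht) (nb x ht)]
  have hindep : ∀ t : Sym, t ≠ Sum.inl i → t ≠ Sum.inl j → t ≠ Sum.inl k → ∀ p q r p' q' r' : List ℕ,
      Q5 i j k g p q r [] [] t = Q5 i j k g p' q' r' [] [] t := by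
    intro t t1 t2 t3 p q r p' q' r'
    simp [Q5, t1, t2, t3]
  have S1 : W [b, a] [b] [a] = W [a, b] [a] [b] := by
    refine swapRel hw (Equiv.swap a b) c _ _ ?_
    intro t ht
    by_cases t1 : t = Sum.inl i
    · subst t1; simp [Q5]
    · by_cases t2 : t = Sum.inl j
      · subst t2; simp [Q5, hji]
      · by_cases t3 : t = Sum.inl k
        · subst t3; simp [Q5, hki, hkj]
        · rw [hswap t ht t1 t2 t3]; exact hindep t t1 t2 t3 _ _ _ _ _ _
  have S2 : W [a, b] [b] [a] = W [b, a] [a] [b] := by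
    refine swapRel hw (Equiv.swap a b) c _ _ ?_
    intro t ht
    by_cases t1 : t = Sum.inl i
    · subst t1; simp [Q5]
    · by_cases t2 : t = Sum.inl j
      · subst t2; simp [Q5, hji]
      · by_cases t3 : t = Sum.inl k
        · subst t3; simp [Q5, hki, hkj]
        · rw [hswap t ht t1 t2 t3]; exact hindep t t1 t2 t3 _ _ _ _ _ _
  rw [S1, S2]
  rw [S1, S2] at E2
  linarith

lemma countP_inr (c : List Sym) (x : ℕ × Bool)
    (h : (c.filterMap Sum.getRight?).count x = 1) :
    c.countP (fun t => decide (t = Sum.inr x)) = 1 := by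
  rw [← h]
  clear h
  induction c with
  | nil => simp
  | cons y c ih =>
    rcases y with n | y
    · rw [List.countP_cons, ih]
      simp
    · rw [List.countP_cons, ih]
      by_cases h : y = x
      · simp [h]
      · simp [h]

/-- A moving arrow against a fixed arrow `g`. -/
lemma six_fixed {w : List ℕ → ℚ} (hw : WS w) {c : List Sym} {i j k : Fin 3} {a b g : ℕ}
    (h : SixData c i j k a b) (hga : g ≠ a) (hgb : g ≠ b)
    (hgF : (c.filterMap Sum.getRight?).count (g, false) = 1)
    (hgT : (c.filterMap Sum.getRight?).count (g, true) = 1) :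
    ((Dw w a g (fill c (rr i j a i k b)) + Dw w b g (fill c (rr i j a i k b))) -
      (Dw w a g (fill c (rr i k b i j a)) + Dw w b g (fill c (rr i k b i j a))) +
      ((Dw w a g (fill c (rr i j a j k b)) + Dw w b g (fill c (rr i j a j k b))) -
      (Dw w a g (fill c (rr j k b i j a)) + Dw w b g (fill c (rr j k b i j a)))) +
      ((Dw w a g (fill c (rr i k a j k b)) + Dw w b g (fill c (rr i k a j k b))) -
      (Dw w a g (fill c (rr j k b i k a)) + Dw w b g (fill c (rr j k b i k a))))) = 0 := by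
  obtain ⟨hc, hij, hik, hjk, hab, na, nb⟩ := h
  have hall := SixData.all (c := c) (a := a) (b := b) ⟨hc, hij, hik, hjk, hab, na, nb⟩
  have hji := hij.symm; have hki := hik.symm; have hkj := hjk.symm; have hba := hab.symm
  have hag := hga.symm; have hbg := hgb.symm
  set W : List ℕ → List ℕ → List ℕ → List ℕ → List ℕ → ℚ :=
    fun p q r X Y => w (c.flatMap (Q5 i j k g p q r X Y)) with hW
  have ha1 : ∀ (f : Fin 3 → List (ℕ × Bool)) (p q r : List ℕ), (f i).map (rho1 a g) = p →
      (f j).map (rho1 a g) = q → (f k).map (rho1 a g) = r →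
      w ((fill c f).map (rho1 a g)) = W p q r [a] [g] := by
    intro f p q r hp hq hr
    rw [hW, word_eq c f (rho1 a g) i j k hall hij hik hjk g p q r [a] [g] hp hq hr
      (fun _ => by simp [rho1]) (fun _ => by simp [rho1])
      (fun x hx hxg => by simp [rho1, na x hx, hxg])]
  have ha2 : ∀ (f : Fin 3 → List (ℕ × Bool)) (p q r : List ℕ), (f i).map (rho2 a g) = p →
      (f j).map (rho2 a g) = q → (f k).map (rho2 a g) = r →
      w ((fill c f).map (rho2 a g)) = W p q r [g] [a] := by
    intro f p q r hp hq hr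
    rw [hW, word_eq c f (rho2 a g) i j k hall hij hik hjk g p q r [g] [a] hp hq hr
      (fun _ => by simp [rho2, hga]) (fun _ => by simp [rho2, hga])
      (fun x hx hxg => by simp [rho2, na x hx, hxg])]
  have hb1 : ∀ (f : Fin 3 → List (ℕ × Bool)) (p q r : List ℕ), (f i).map (rho1 b g) = p →
      (f j).map (rho1 b g) = q → (f k).map (rho1 b g) = r →
      w ((fill c f).map (rho1 b g)) = W p q r [b] [g] := by
    intro f p q r hp hq hr
    rw [hW, word_eq c f (rho1 b g) i j k hall hij hik hjk g p q r [b] [g] hp hq hr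
      (fun _ => by simp [rho1]) (fun _ => by simp [rho1])
      (fun x hx hxg => by simp [rho1, nb x hx, hxg])]
  have hb2 : ∀ (f : Fin 3 → List (ℕ × Bool)) (p q r : List ℕ), (f i).map (rho2 b g) = p →
      (f j).map (rho2 b g) = q → (f k).map (rho2 b g) = r →
      w ((fill c f).map (rho2 b g)) = W p q r [g] [b] := by
    intro f p q r hp hq hr
    rw [hW, word_eq c f (rho2 b g) i j k hall hij hik hjk g p q r [g] [b] hp hq hr
      (fun _ => by simp [rho2, hgb]) (fun _ => by simp [rho2, hgb])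
      (fun x hx hxg => by simp [rho2, nb x hx, hxg])]
  simp only [Dw]
  rw [ha1 (rr i j a i k b) [a, b] [g] [b] (by simp [rr, rho1, *]) (by simp [rr, rho1, *])
      (by simp [rr, rho1, *]),
    ha2 (rr i j a i k b) [a, b] [g] [b] (by simp [rr, rho2, *]) (by simp [rr, rho2, *])
      (by simp [rr, rho2, *]),
    hb1 (rr i j a i k b) [a, b] [a] [g] (by simp [rr, rho1, *]) (by simp [rr, rho1, *])
      (by simp [rr, rho1, *]),
    hb2 (rr i j a i k b) [a, b] [a] [g] (by simp [rr, rho2, *]) (by simp [rr, rho2, *])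
      (by simp [rr, rho2, *]),
    ha1 (rr i k b i j a) [b, a] [g] [b] (by simp [rr, rho1, *]) (by simp [rr, rho1, *])
      (by simp [rr, rho1, *]),
    ha2 (rr i k b i j a) [b, a] [g] [b] (by simp [rr, rho2, *]) (by simp [rr, rho2, *])
      (by simp [rr, rho2, *]),
    hb1 (rr i k b i j a) [b, a] [a] [g] (by simp [rr, rho1, *]) (by simp [rr, rho1, *])
      (by simp [rr, rho1, *]),
    hb2 (rr i k b i j a) [b, a] [a] [g] (by simp [rr, rho2, *]) (by simp [rr, rho2, *])
      (by simp [rr, rho2, *]),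
    ha1 (rr i j a j k b) [a] [g, b] [b] (by simp [rr, rho1, *]) (by simp [rr, rho1, *])
      (by simp [rr, rho1, *]),
    ha2 (rr i j a j k b) [a] [g, b] [b] (by simp [rr, rho2, *]) (by simp [rr, rho2, *])
      (by simp [rr, rho2, *]),
    hb1 (rr i j a j k b) [a] [a, b] [g] (by simp [rr, rho1, *]) (by simp [rr, rho1, *])
      (by simp [rr, rho1, *]),
    hb2 (rr i j a j k b) [a] [a, b] [g] (by simp [rr, rho2, *]) (by simp [rr, rho2, *])
      (by simp [rr, rho2, *]),
    ha1 (rr j k b i j a) [a] [b, g] [b] (by simp [rr, rho1, *]) (by simp [rr, rho1, *])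
      (by simp [rr, rho1, *]),
    ha2 (rr j k b i j a) [a] [b, g] [b] (by simp [rr, rho2, *]) (by simp [rr, rho2, *])
      (by simp [rr, rho2, *]),
    hb1 (rr j k b i j a) [a] [b, a] [g] (by simp [rr, rho1, *]) (by simp [rr, rho1, *])
      (by simp [rr, rho1, *]),
    hb2 (rr j k b i j a) [a] [b, a] [g] (by simp [rr, rho2, *]) (by simp [rr, rho2, *])
      (by simp [rr, rho2, *]),
    ha1 (rr i k a j k b) [a] [b] [g, b] (by simp [rr, rho1, *]) (by simp [rr, rho1, *])
      (by simp [rr, rho1, *]),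
    ha2 (rr i k a j k b) [a] [b] [g, b] (by simp [rr, rho2, *]) (by simp [rr, rho2, *])
      (by simp [rr, rho2, *]),
    hb1 (rr i k a j k b) [a] [b] [a, g] (by simp [rr, rho1, *]) (by simp [rr, rho1, *])
      (by simp [rr, rho1, *]),
    hb2 (rr i k a j k b) [a] [b] [a, g] (by simp [rr, rho2, *]) (by simp [rr, rho2, *])
      (by simp [rr, rho2, *]),
    ha1 (rr j k b i k a) [a] [b] [b, g] (by simp [rr, rho1, *]) (by simp [rr, rho1, *])
      (by simp [rr, rho1, *]),
    ha2 (rr j k b i k a) [a] [b] [b, g] (by simp [rr, rho2, *]) (by simp [rr, rho2, *])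
      (by simp [rr, rho2, *]),
    hb1 (rr j k b i k a) [a] [b] [g, a] (by simp [rr, rho1, *]) (by simp [rr, rho1, *])
      (by simp [rr, rho1, *]),
    hb2 (rr j k b i k a) [a] [b] [g, a] (by simp [rr, rho2, *]) (by simp [rr, rho2, *])
      (by simp [rr, rho2, *])]
  have cI := countP_inl c hc i
  have cJ := countP_inl c hc j
  have cK := countP_inl c hc k
  have cX := countP_inr c (g, false) hgF
  have cY := countP_inr c (g, true) hgT
  -- [t_ij, X_i + X_j] Y_k and the same with x, y exchanged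
  have A1 : W [a, b] [a] [g] [b] [g] - W [b, a] [a] [g] [b] [g] +
      (W [a] [a, b] [g] [b] [g] - W [a] [b, a] [g] [b] [g]) = 0 := by
    refine hw.gen c _ _ _ _ (Sum.inl i) (Sum.inl j) (Sum.inr (g, false)) (by simpa using hij)
      (by simp) (by simp) cI cJ cX a b ?_ ?_ ?_ ?_ ?_
    · intro t t1 t2 t3; simp [Q5, t1, t2, t3]
    all_goals simp [Q5, hji]
  have A2 : W [a, b] [a] [g] [g] [b] - W [b, a] [a] [g] [g] [b] +
      (W [a] [a, b] [g] [g] [b] - W [a] [b, a] [g] [g] [b]) = 0 := by
    refine hw.gen c _ _ _ _ (Sum.inl i) (Sum.inl j) (Sum.inr (g, true)) (by simpa using hij)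
      (by simp) (by simp) cI cJ cY a b ?_ ?_ ?_ ?_ ?_
    · intro t t1 t2 t3; simp [Q5, t1, t2, t3]
    all_goals simp [Q5, hji]
  -- X_i [t_jk, Y_j + Y_k]
  have B1 : W [a] [b, g] [b] [a] [g] - W [a] [g, b] [b] [a] [g] +
      (W [a] [b] [b, g] [a] [g] - W [a] [b] [g, b] [a] [g]) = 0 := by
    refine hw.gen c _ _ _ _ (Sum.inl j) (Sum.inl k) (Sum.inr (g, true)) (by simpa using hjk)
      (by simp) (by simp) cJ cK cY b g ?_ ?_ ?_ ?_ ?_
    · intro t t1 t2 t3; simp [Q5, t1, t2, t3]
    all_goals simp [Q5, hji, hki, hkj]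
  have B2 : W [a] [b, g] [b] [g] [a] - W [a] [g, b] [b] [g] [a] +
      (W [a] [b] [b, g] [g] [a] - W [a] [b] [g, b] [g] [a]) = 0 := by
    refine hw.gen c _ _ _ _ (Sum.inl j) (Sum.inl k) (Sum.inr (g, false)) (by simpa using hjk)
      (by simp) (by simp) cJ cK cX b g ?_ ?_ ?_ ?_ ?_
    · intro t t1 t2 t3; simp [Q5, t1, t2, t3]
    all_goals simp [Q5, hji, hki, hkj]
  -- [t_ik, X_i + X_k] Y_j
  have C1 : W [b, a] [g] [b] [a] [g] - W [a, b] [g] [b] [a] [g] +
      (W [b] [g] [b, a] [a] [g] - W [b] [g] [a, b] [a] [g]) = 0 := by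
    refine hw.gen c _ _ _ _ (Sum.inl i) (Sum.inl k) (Sum.inr (g, false)) (by simpa using hik)
      (by simp) (by simp) cI cK cX b a ?_ ?_ ?_ ?_ ?_
    · intro t t1 t2 t3; simp [Q5, t1, t2, t3]
    all_goals simp [Q5, hji, hki, hkj]
  have C2 : W [a, g] [b] [a] [b] [g] - W [g, a] [b] [a] [b] [g] +
      (W [a] [b] [a, g] [b] [g] - W [a] [b] [g, a] [b] [g]) = 0 := by
    refine hw.gen c _ _ _ _ (Sum.inl i) (Sum.inl k) (Sum.inr (g, true)) (by simpa using hik)
      (by simp) (by simp) cI cK cY a g ?_ ?_ ?_ ?_ ?_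
    · intro t t1 t2 t3; simp [Q5, t1, t2, t3]
    all_goals simp [Q5, hji, hki, hkj]
  -- relabellings
  set σ : Equiv.Perm ℕ := Equiv.swap a g * Equiv.swap a b with hσ
  have σa : σ a = b := by
    simp [hσ, Equiv.swap_apply_of_ne_of_ne hba hbg]
  have σb : σ b = g := by simp [hσ]
  have σg : σ g = a := by
    rw [hσ, Equiv.Perm.mul_apply, Equiv.swap_apply_of_ne_of_ne hga hgb, Equiv.swap_apply_right]
  have hrel : ∀ (p q r X Y p' q' r' X' Y' : List ℕ), p.map σ = p' → q.map σ = q' → r.map σ = r' →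
      X.map σ = X' → Y.map σ = Y' → W p' q' r' X' Y' = W p q r X Y := by
    intro p q r X Y p' q' r' X' Y' hp hq hr hX hY
    refine swapRel hw σ c _ _ ?_
    rintro t ht
    by_cases t1 : t = Sum.inl i
    · subst t1; simpa [Q5] using hp
    · by_cases t2 : t = Sum.inl j
      · subst t2; simpa [Q5, hji] using hq
      · by_cases t3 : t = Sum.inl k
        · subst t3; simpa [Q5, hki, hkj] using hr
        · by_cases t4 : t = Sum.inr (g, false)
          · subst t4; simpa [Q5] using hX
          · by_cases t5 : t = Sum.inr (g, true)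
            · subst t5; simpa [Q5] using hY
            · rcases t with m | x
              · simp [Q5, t1, t2, t3]
              · have hxg : x.1 ≠ g := by
                  rintro rfl
                  rcases x with ⟨x1, x2⟩
                  cases x2
                  · exact t4 rfl
                  · exact t5 rfl
                have e1 : x ≠ (g, false) := by rintro rfl; exact hxg rfl
                have e2 : x ≠ (g, true) := by rintro rfl; exact hxg rfl
                have e3 : σ x.1 = x.1 := by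
                  rw [hσ, Equiv.Perm.mul_apply,
                    Equiv.swap_apply_of_ne_of_ne (na x ht) (nb x ht),
                    Equiv.swap_apply_of_ne_of_ne (na x ht) hxg]
                simp [Q5, e1, e2, e3]
  -- u5', u6' : (a, g, b) -> (b, a, g)
  have R1 : W [b] [g] [b, a] [a] [g] = W [a] [b] [a, g] [g] [b] :=
    hrel _ _ _ _ _ _ _ _ _ _ (by simp [σa]) (by simp [σb]) (by simp [σa, σg]) (by simp [σg])
      (by simp [σb])
  have R2 : W [b] [g] [a, b] [a] [g] = W [a] [b] [g, a] [g] [b] :=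
    hrel _ _ _ _ _ _ _ _ _ _ (by simp [σa]) (by simp [σb]) (by simp [σa, σg]) (by simp [σg])
      (by simp [σb])
  -- t1', t2' : the inverse relabelling
  have R3 : W [a, b] [g] [b] [g] [a] = W [g, a] [b] [a] [b] [g] :=
    hrel _ _ _ _ _ _ _ _ _ _ (by simp [σg, σa]) (by simp [σb]) (by simp [σa]) (by simp [σb])
      (by simp [σg])
  have R4 : W [b, a] [g] [b] [g] [a] = W [a, g] [b] [a] [b] [g] :=
    hrel _ _ _ _ _ _ _ _ _ _ (by simp [σg, σa]) (by simp [σb]) (by simp [σa]) (by simp [σb])
      (by simp [σg])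
  rw [R1, R2] at C1
  rw [R3, R4]
  linarith

end Pool.Agent.ARD
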