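import Mathlib
import Pool.Agent.ARD.Six

set_option autoImplicit false

namespace Pool.Agent.ARD

open Finset

/-- The sign of reversing the arrow `e`. -/
def sg (e : ℕ) (T : Finset ℕ) : ℚ := if e ∈ T then -1 else 1

lemma Dw_flip {w : List ℕ → ℚ} (hw : WS w) (e f : ℕ) (hef : e ≠ f) (T : Finset ℕ)
    (l : List (ℕ × Bool)) : Dw w e f (flip T l) = sg e T * sg f T * Dw w e f l := by
  have hsw : ∀ l : List ℕ, w (l.map (Equiv.swap e f)) = w l := fun l =>
    hw.relabel l _ (Equiv.swap e f).injective
  have hfe := hef.symm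
  unfold Dw flip sg
  rw [List.map_map, List.map_map]
  by_cases he : e ∈ T <;> by_cases hf : f ∈ T
  · have h1 : (rho1 e f) ∘ (fun p : ℕ × Bool => (p.1, xor p.2 (decide (p.1 ∈ T)))) =
        (Equiv.swap e f) ∘ (rho1 e f) := by
      funext p
      obtain ⟨x, y⟩ := p
      by_cases q1 : x = e
      · subst q1; cases y <;> simp [rho1, he]
      · by_cases q2 : x = f
        · subst q2; cases y <;> simp [rho1, hf]
        · simp [rho1, q1, q2, Equiv.swap_apply_of_ne_of_ne q1 q2]
    have h2 : (rho2 e f) ∘ (fun p : ℕ × Bool => (p.1, xor p.2 (decide (p.1 ∈ T)))) =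
        (Equiv.swap e f) ∘ (rho2 e f) := by
      funext p
      obtain ⟨x, y⟩ := p
      by_cases q1 : x = e
      · subst q1; cases y <;> simp [rho2, he]
      · by_cases q2 : x = f
        · subst q2; cases y <;> simp [rho2, hf, q1]
        · simp [rho2, q1, q2, Equiv.swap_apply_of_ne_of_ne q1 q2]
    rw [h1, h2, ← List.map_map, ← List.map_map, hsw, hsw]
    simp [he, hf]
  · have h1 : (rho1 e f) ∘ (fun p : ℕ × Bool => (p.1, xor p.2 (decide (p.1 ∈ T)))) =
        (Equiv.swap e f) ∘ (rho2 e f) := by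
      funext p
      obtain ⟨x, y⟩ := p
      by_cases q1 : x = e
      · subst q1; cases y <;> simp [rho1, rho2, he]
      · by_cases q2 : x = f
        · subst q2; cases y <;> simp [rho1, rho2, hf, q1]
        · simp [rho1, rho2, q1, q2, Equiv.swap_apply_of_ne_of_ne q1 q2]
    have h2 : (rho2 e f) ∘ (fun p : ℕ × Bool => (p.1, xor p.2 (decide (p.1 ∈ T)))) =
        (Equiv.swap e f) ∘ (rho1 e f) := by
      funext p
      obtain ⟨x, y⟩ := p
      by_cases q1 : x = e
      · subst q1; cases y <;> simp [rho1, rho2, he]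
      · by_cases q2 : x = f
        · subst q2; cases y <;> simp [rho1, rho2, hf, q1]
        · simp [rho1, rho2, q1, q2, Equiv.swap_apply_of_ne_of_ne q1 q2]
    rw [h1, h2, ← List.map_map, ← List.map_map, hsw, hsw]
    simp [he, hf]
  · have h1 : (rho1 e f) ∘ (fun p : ℕ × Bool => (p.1, xor p.2 (decide (p.1 ∈ T)))) =
        (rho2 e f) := by
      funext p
      obtain ⟨x, y⟩ := p
      by_cases q1 : x = e
      · subst q1; cases y <;> simp [rho1, rho2, he]
      · by_cases q2 : x = f
        · subst q2; cases y <;> simp [rho1, rho2, hf, q1]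
        · simp [rho1, rho2, q1, q2]
    have h2 : (rho2 e f) ∘ (fun p : ℕ × Bool => (p.1, xor p.2 (decide (p.1 ∈ T)))) =
        (rho1 e f) := by
      funext p
      obtain ⟨x, y⟩ := p
      by_cases q1 : x = e
      · subst q1; cases y <;> simp [rho1, rho2, he]
      · by_cases q2 : x = f
        · subst q2; cases y <;> simp [rho1, rho2, hf, q1]
        · simp [rho1, rho2, q1, q2]
    rw [h1, h2]
    simp [he, hf]
  · have h1 : (rho1 e f) ∘ (fun p : ℕ × Bool => (p.1, xor p.2 (decide (p.1 ∈ T)))) =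
        (rho1 e f) := by
      funext p
      obtain ⟨x, y⟩ := p
      by_cases q1 : x = e
      · subst q1; cases y <;> simp [rho1, he]
      · by_cases q2 : x = f
        · subst q2; cases y <;> simp [rho1, hf]
        · simp [rho1, q1, q2]
    have h2 : (rho2 e f) ∘ (fun p : ℕ × Bool => (p.1, xor p.2 (decide (p.1 ∈ T)))) =
        (rho2 e f) := by
      funext p
      obtain ⟨x, y⟩ := p
      by_cases q1 : x = e
      · subst q1; cases y <;> simp [rho2, he]
      · by_cases q2 : x = f
        · subst q2; cases y <;> simp [rho2, hf, q1]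
        · simp [rho2, q1, q2]
    rw [h1, h2]
    simp [he, hf]

lemma Dw_symm {w : List ℕ → ℚ} (hw : WS w) (e f : ℕ) (hef : e ≠ f) (l : List (ℕ × Bool)) :
    Dw w f e l = Dw w e f l := by
  have hsw : ∀ l : List ℕ, w (l.map (Equiv.swap e f)) = w l := fun l =>
    hw.relabel l _ (Equiv.swap e f).injective
  have hfe := hef.symm
  unfold Dw
  have h1 : rho1 f e = (Equiv.swap e f) ∘ (rho1 e f) := by
    funext p
    obtain ⟨x, y⟩ := p
    by_cases q1 : x = e
    · subst q1; cases y <;> simp [rho1]
    · by_cases q2 : x = f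
      · subst q2; cases y <;> simp [rho1]
      · simp [rho1, q1, q2, Equiv.swap_apply_of_ne_of_ne q1 q2]
  have h2 : rho2 f e = rho2 e f := by
    funext p
    obtain ⟨x, y⟩ := p
    by_cases q1 : x = e
    · subst q1; simp [rho2, hef]
    · by_cases q2 : x = f
      · subst q2; simp [rho2, q1]
      · simp [rho2, q1, q2]
  rw [h1, ← List.map_map, hsw, h2]

/-- The labels of a word. -/
def Lb (l : List (ℕ × Bool)) : Finset ℕ := (l.map Prod.fst).toFinset

/-- The functional. -/
noncomputable def Gf (w : List ℕ → ℚ) (l : List (ℕ × Bool)) : ℚ :=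
  w (l.map Prod.fst) - 1 / 6 * ∑ e ∈ Lb l, ∑ f ∈ (Lb l).erase e, Dw w e f l

lemma flip_fst (T : Finset ℕ) (l : List (ℕ × Bool)) :
    (flip T l).map Prod.fst = l.map Prod.fst := by
  unfold flip
  rw [List.map_map]
  rfl

lemma sum_sg (e f : ℕ) (hef : e ≠ f) (U : Finset ℕ) :
    ∑ T ∈ U.powerset, sg e T * sg f T = if e ∈ U ∨ f ∈ U then 0 else 2 ^ U.card := by
  have h : ∀ T : Finset ℕ, sg e T * sg f T =
      ∏ x ∈ T, ((if x = e then (-1 : ℚ) else 1) * (if x = f then (-1 : ℚ) else 1)) := by
    intro T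
    rw [Finset.prod_mul_distrib, Finset.prod_ite_eq', Finset.prod_ite_eq']
    rfl
  simp_rw [h]
  rw [← Finset.prod_one_add]
  split_ifs with hU
  · rcases hU with hU | hU
    · apply Finset.prod_eq_zero hU
      simp [hef]
    · apply Finset.prod_eq_zero hU
      simp [hef.symm]
  · push Not at hU
    rw [Finset.prod_congr rfl (g := fun _ => (2 : ℚ)), Finset.prod_const]
    intro x hx
    have h1 : x ≠ e := by rintro rfl; exact hU.1 hx
    have h2 : x ≠ f := by rintro rfl; exact hU.2 hx
    simp [h1, h2]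
    norm_num

lemma sum_Gf {w : List ℕ → ℚ} (hw : WS w) (U : Finset ℕ) (l : List (ℕ × Bool)) :
    ∑ T ∈ U.powerset, Gf w (flip T l) = 2 ^ U.card * (w (l.map Prod.fst) -
      1 / 6 * ∑ e ∈ Lb l \ U, ∑ f ∈ (Lb l \ U).erase e, Dw w e f l) := by
  unfold Gf
  rw [Finset.sum_sub_distrib]
  have hL : ∀ T, Lb (flip T l) = Lb l := by
    intro T; unfold Lb; rw [flip_fst]
  simp_rw [flip_fst, hL]
  rw [Finset.sum_const, Finset.card_powerset, ← Finset.mul_sum, mul_sub]
  congr 1
  · simp
  · rw [mul_left_comm]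
    congr 1
    rw [Finset.sum_comm, Finset.mul_sum]
    have key : ∀ e ∈ Lb l, ∑ T ∈ U.powerset, ∑ f ∈ (Lb l).erase e, Dw w e f (flip T l) =
        if e ∈ U then 0 else 2 ^ U.card * ∑ f ∈ (Lb l \ U).erase e, Dw w e f l := by
      intro e he
      rw [Finset.sum_comm]
      have : ∀ f ∈ (Lb l).erase e, ∑ T ∈ U.powerset, Dw w e f (flip T l) =
          if e ∈ U ∨ f ∈ U then 0 else 2 ^ U.card * Dw w e f l := by
        intro f hf
        have hef : e ≠ f := (Finset.ne_of_mem_erase hf).symm
        simp_rw [Dw_flip hw e f hef]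
        rw [← Finset.sum_mul, sum_sg e f hef]
        split_ifs <;> simp
      rw [Finset.sum_congr rfl this]
      by_cases heU : e ∈ U
      · simp [heU]
      · simp only [heU, false_or, if_false]
        rw [Finset.mul_sum]
        have hset : (Lb l \ U).erase e = ((Lb l).erase e).filter (fun f => f ∉ U) := by
          ext f; simp only [Finset.mem_erase, Finset.mem_sdiff, Finset.mem_filter]; tauto
        rw [hset, Finset.sum_filter]
        refine Finset.sum_congr rfl ?_
        intro f _
        by_cases hfU : f ∈ U <;> simp [hfU]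
    rw [Finset.sum_congr rfl key]
    have hset : Lb l \ U = (Lb l).filter (fun f => f ∉ U) := by
      ext f; simp only [Finset.mem_sdiff, Finset.mem_filter]
    rw [show (∑ e ∈ Lb l \ U, 2 ^ U.card * ∑ f ∈ (Lb l \ U).erase e, Dw w e f l) =
      ∑ e ∈ (Lb l).filter (fun f => f ∉ U), 2 ^ U.card * ∑ f ∈ (Lb l \ U).erase e, Dw w e f l by
        rw [← hset], Finset.sum_filter]
    refine Finset.sum_congr rfl ?_
    intro e _
    by_cases heU : e ∈ U <;> simp [heU]

end Pool.Agent.ARD
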