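import Mathlib
import Pool.Agent.ARD.Func

set_option autoImplicit false

namespace Pool.Agent.ARD

open Finset

lemma count_fill {α : Type*} [BEq α] [LawfulBEq α] (c : List (Fin 3 ⊕ α)) (f : Fin 3 → List α)
    (y : α) : (fill c f).count y = ∑ m : Fin 3, (c.filterMap Sum.getLeft?).count m * (f m).count y +
      (c.filterMap Sum.getRight?).count y := by
  unfold fill
  induction c with
  | nil => simp
  | cons x c ih =>
    rw [List.flatMap_cons, List.count_append, ih]
    rcases x with m | x
    · have h1 : ∀ n : Fin 3, ((Sum.inl m :: c).filterMap Sum.getLeft?).count n =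
          (c.filterMap Sum.getLeft?).count n + if n = m then 1 else 0 := by
        intro n
        rw [List.filterMap_cons_some (b := m) (by rfl), List.count_cons]
        by_cases h : n = m
        · simp [h]
        · simp [h, Ne.symm h]
      simp_rw [h1, add_mul]
      rw [Finset.sum_add_distrib]
      simp
      ring
    · simp only [Sum.elim_inr, List.count_cons, List.count_nil]
      rw [List.filterMap_cons_none (by rfl), List.filterMap_cons_some (b := x) (by rfl),
        List.count_cons]
      ring

lemma count_fill' {α : Type*} [BEq α] [LawfulBEq α] {c : List (Fin 3 ⊕ α)} (hc : IsCtx c)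
    (f : Fin 3 → List α) (y : α) : (fill c f).count y = ∑ m : Fin 3, (f m).count y +
      (c.filterMap Sum.getRight?).count y := by
  rw [count_fill]
  congr 1
  refine Finset.sum_congr rfl ?_
  intro m _
  rw [hc m, one_mul]

lemma sum_rr (i j : Fin 3) (a : ℕ) (k l : Fin 3) (b : ℕ) (y : ℕ × Bool) :
    ∑ m : Fin 3, (rr i j a k l b m).count y = [(a, false), (a, true), (b, false), (b, true)].count y := by
  have h : ∀ (m n : Fin 3) (z : ℕ × Bool), (if m = n then [z] else []).count y =
      if m = n then [z].count y else 0 := by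
    intro m n z; split_ifs <;> simp
  unfold rr
  simp only [List.count_append, h, Finset.sum_add_distrib, Finset.sum_ite_eq', Finset.mem_univ,
    if_true]
  simp only [List.count_cons, List.count_nil]
  ring

lemma sum_tt (i j : Fin 3) (hij : i ≠ j) (a : ℕ) (k l : Fin 3) (hkl : k ≠ l) (b : ℕ) (y : ℕ) :
    ∑ m : Fin 3, (tt i j a k l b m).count y = [a, a, b, b].count y := by
  have h : ∀ (i j : Fin 3) (_ : i ≠ j) (a : ℕ), ∑ m : Fin 3, (if m = i ∨ m = j then [a] else []).count y =
      [a, a].count y := by
    intro i j hij a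
    have : ∀ m : Fin 3, (if m = i ∨ m = j then [a] else []).count y =
        (if m = i then [a].count y else 0) + (if m = j then [a].count y else 0) := by
      intro m
      by_cases h1 : m = i
      · have h2 : m ≠ j := fun h => hij (h1.symm.trans h)
        simp [h1, hij]
      · by_cases h2 : m = j
        · simp [h2, hij.symm]
        · simp [h1, h2]
    simp_rw [this]
    rw [Finset.sum_add_distrib, Finset.sum_ite_eq', Finset.sum_ite_eq']
    simp only [Finset.mem_univ, if_true, List.count_cons, List.count_nil]
    ring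
  unfold tt
  simp only [List.count_append, Finset.sum_add_distrib]
  rw [h i j hij a, h k l hkl b]
  simp only [List.count_cons, List.count_nil]
  ring

/-- All words of a 4T relation are rearrangements of each other. -/
lemma perm_tt {c : List (Fin 3 ⊕ ℕ)} (hc : IsCtx c) {i j k l i' j' k' l' : Fin 3} (a b a' b' : ℕ)
    (hij : i ≠ j) (hkl : k ≠ l) (hij' : i' ≠ j') (hkl' : k' ≠ l')
    (h : ∀ y, [a, a, b, b].count y = [a', a', b', b'].count y) :
    (fill c (tt i j a k l b)).Perm (fill c (tt i' j' a' k' l' b')) := by
  rw [List.perm_iff_count]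
  intro y
  rw [count_fill' hc, count_fill' hc, sum_tt i j hij a k l hkl b, sum_tt i' j' hij' a' k' l' hkl' b', h]

lemma IsC_perm {d : ℕ} {l l' : List ℕ} (h : l.Perm l') : IsC d l ↔ IsC d l' := by
  unfold IsC
  rw [h.length_eq]
  refine and_congr Iff.rfl ⟨?_, ?_⟩
  · intro H a ha; rw [← h.count_eq]; exact H a (h.mem_iff.2 ha)
  · intro H a ha; rw [h.count_eq]; exact H a (h.mem_iff.1 ha)

lemma IsC_map {d : ℕ} {l : List ℕ} {σ : ℕ → ℕ} (hσ : Function.Injective σ) :
    IsC d (l.map σ) ↔ IsC d l := by
  unfold IsC
  rw [List.length_map]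
  refine and_congr Iff.rfl ⟨?_, ?_⟩
  · intro H a ha
    rw [← List.count_map_of_injective l σ hσ]
    exact H (σ a) (List.mem_map_of_mem ha)
  · intro H a ha
    rw [List.mem_map] at ha
    obtain ⟨x, hx, rfl⟩ := ha
    rw [List.count_map_of_injective l σ hσ]
    exact H x hx

open Classical in
/-- The weight system of a linear functional. -/
lemma WS_of {d : ℕ} (ψ : (List ℕ →₀ ℚ) →ₗ[ℚ] ℚ) (hψ : ∀ x ∈ rel4 d, ψ x = 0) :
    WS (fun l => if IsC d l then ψ (Finsupp.single l 1) else 0) := by
  constructor
  · intro l σ hσ
    by_cases h : IsC d l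
    · simp only [(IsC_map hσ).2 h, h, if_true]
      have := hψ _ (Submodule.subset_span (Or.inl ⟨l, σ, h, hσ, rfl⟩))
      rw [map_sub] at this
      linarith
    · have h' : ¬ IsC d (l.map σ) := fun h' => h ((IsC_map hσ).1 h')
      simp only [h, h', if_false]
  · intro c i j k a b hij hik hjk hc
    have h2 : IsC d (fill c (tt i k b i j a)) ↔ IsC d (fill c (tt i j a i k b)) :=
      IsC_perm (perm_tt hc _ _ _ _ hik hij hij hik (by intro y; simp [List.count_cons]; ring))
    have h3 : IsC d (fill c (tt i j a j k b)) ↔ IsC d (fill c (tt i j a i k b)) :=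
      IsC_perm (perm_tt hc _ _ _ _ hij hjk hij hik (by intro y; simp [List.count_cons]))
    have h4 : IsC d (fill c (tt j k b i j a)) ↔ IsC d (fill c (tt i j a i k b)) :=
      IsC_perm (perm_tt hc _ _ _ _ hjk hij hij hik (by intro y; simp [List.count_cons]; ring))
    simp only [h2, h3, h4]
    by_cases h : IsC d (fill c (tt i j a i k b))
    · simp only [h, if_true]
      have := hψ _ (Submodule.subset_span (Or.inr ⟨c, i, j, k, a, b, hij, hik, hjk, hc, h, rfl⟩))
      unfold fourT at this
      simp only [map_sub, map_add] at this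
      linarith
    · simp only [h, if_false]
      ring

lemma sixData_of {d : ℕ} {c : List Sym} {i j k : Fin 3} {a b : ℕ} (hij : i ≠ j) (hik : i ≠ k)
    (hjk : j ≠ k) (hc : IsCtx c) (h : IsA d (fill c (rr i j a i k b))) :
    SixData c i j k a b ∧ ∀ g ∈ labels c, g ≠ a ∧ g ≠ b ∧
      (c.filterMap Sum.getRight?).count (g, false) = 1 ∧
      (c.filterMap Sum.getRight?).count (g, true) = 1 := by
  have hcount : ∀ y, (fill c (rr i j a i k b)).count y =
      [(a, false), (a, true), (b, false), (b, true)].count y + (c.filterMap Sum.getRight?).count y := by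
    intro y; rw [count_fill' hc, sum_rr]
  have hmem : ∀ y, y ∈ fill c (rr i j a i k b) ↔ 0 < (fill c (rr i j a i k b)).count y :=
    fun y => List.count_pos_iff.symm
  have ha : (a, false) ∈ fill c (rr i j a i k b) := by
    rw [hmem, hcount]; simp
  have hb : (b, false) ∈ fill c (rr i j a i k b) := by
    rw [hmem, hcount]; simp
  have ha' := h.2 _ ha
  have hb' := h.2 _ hb
  simp only [hcount] at ha' hb'
  have hab : a ≠ b := by
    rintro rfl
    have := ha'.1
    simp at this
    omega
  have hcr : ∀ x : ℕ × Bool, Sum.inr x ∈ c → 0 < (c.filterMap Sum.getRight?).count x := by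
    intro x hx
    rw [List.count_pos_iff, List.mem_filterMap]
    exact ⟨_, hx, rfl⟩
  have na : ∀ x : ℕ × Bool, Sum.inr x ∈ c → x.1 ≠ a := by
    rintro ⟨x, y⟩ hx hxa
    have h0 := hcr _ hx
    have hxa : x = a := hxa
    rw [hxa] at h0
    cases y
    · have := ha'.1; simp [hab] at this; omega
    · have := ha'.2; simp [hab] at this; omega
  have nb : ∀ x : ℕ × Bool, Sum.inr x ∈ c → x.1 ≠ b := by
    rintro ⟨x, y⟩ hx hxa
    have h0 := hcr _ hx
    have hxa : x = b := hxa
    rw [hxa] at h0
    cases y
    · have := hb'.1; simp [hab] at this; omega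
    · have := hb'.2; simp [hab] at this; omega
  refine ⟨⟨hc, hij, hik, hjk, hab, na, nb⟩, ?_⟩
  intro g hg
  unfold labels at hg
  rw [List.mem_toFinset, List.mem_map] at hg
  obtain ⟨x, hx, rfl⟩ := hg
  have hx' := hx
  rw [List.mem_filterMap] at hx
  obtain ⟨t, ht, htx⟩ := hx
  rcases t with m | y
  · simp at htx
  · simp at htx
    subst htx
    have h1 := na y ht
    have h2 := nb y ht
    have hyl : y ∈ fill c (rr i j a i k b) := by
      rw [hmem, hcount]
      have := hcr y ht
      omega
    have h3 := h.2 y hyl
    simp only [hcount] at h3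
    refine ⟨h1, h2, ?_, ?_⟩
    · have := h3.1
      rw [← this]
      symm
      rw [Nat.add_eq_right, List.count_eq_zero]
      simp [h1, h2]
    · have := h3.2
      rw [← this]
      symm
      rw [Nat.add_eq_right, List.count_eq_zero]
      simp [h1, h2]

end Pool.Agent.ARD
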