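import Mathlib
import Pool.Agent.ARD.Main1

set_option autoImplicit false

namespace Pool.Agent.ARD

open Finset

lemma mem_Lb (l : List (ℕ × Bool)) (x : ℕ) : x ∈ Lb l ↔ ∃ y, (x, y) ∈ l := by
  unfold Lb
  rw [List.mem_toFinset, List.mem_map]
  constructor
  · rintro ⟨p, hp, rfl⟩; exact ⟨p.2, hp⟩
  · rintro ⟨y, hy⟩; exact ⟨(x, y), hy, rfl⟩

lemma mem_labels (c : List Sym) (x : ℕ) :
    x ∈ labels c ↔ ∃ y, (x, y) ∈ c.filterMap Sum.getRight? := by
  unfold labels
  rw [List.mem_toFinset, List.mem_map]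
  constructor
  · rintro ⟨p, hp, rfl⟩; exact ⟨p.2, hp⟩
  · rintro ⟨y, hy⟩; exact ⟨(x, y), hy, rfl⟩

lemma Lb_fill {c : List Sym} (hc : IsCtx c) (i j : Fin 3) (a : ℕ) (k l : Fin 3) (b : ℕ) :
    Lb (fill c (rr i j a k l b)) = insert a (insert b (labels c)) := by
  ext x
  rw [mem_Lb, Finset.mem_insert, Finset.mem_insert, mem_labels]
  have h : ∀ y, (x, y) ∈ fill c (rr i j a k l b) ↔
      (x, y) ∈ [(a, false), (a, true), (b, false), (b, true)] ∨
        (x, y) ∈ c.filterMap Sum.getRight? := by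
    intro y
    rw [← List.count_pos_iff, count_fill' hc, sum_rr, ← List.count_pos_iff, ← List.count_pos_iff]
    omega
  simp_rw [h]
  constructor
  · rintro ⟨y, hy | hy⟩
    · simp at hy
      tauto
    · exact Or.inr (Or.inr ⟨y, hy⟩)
  · rintro (rfl | rfl | ⟨y, hy⟩)
    · exact ⟨false, Or.inl (by simp)⟩
    · exact ⟨false, Or.inl (by simp)⟩
    · exact ⟨y, Or.inr hy⟩

lemma sum_two {w : List ℕ → ℚ} (hw : WS w) {a b : ℕ} (hab : a ≠ b) (l : List (ℕ × Bool)) :
    ∑ e ∈ ({a, b} : Finset ℕ), ∑ f ∈ ({a, b} : Finset ℕ).erase e, Dw w e f l =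
      2 * Dw w a b l := by
  rw [Finset.sum_pair hab]
  have h1 : ({a, b} : Finset ℕ).erase a = {b} := by
    ext x; simp only [Finset.mem_erase, Finset.mem_insert, Finset.mem_singleton]
    constructor
    · rintro ⟨h1, h2⟩; tauto
    · rintro rfl; exact ⟨hab.symm, Or.inr rfl⟩
  have h2 : ({a, b} : Finset ℕ).erase b = {a} := by
    ext x; simp only [Finset.mem_erase, Finset.mem_insert, Finset.mem_singleton]
    constructor
    · rintro ⟨h1, h2⟩; tauto
    · rintro rfl; exact ⟨hab, Or.inl rfl⟩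
  rw [h1, h2, Finset.sum_singleton, Finset.sum_singleton, Dw_symm hw a b hab]
  ring

lemma sum_three {w : List ℕ → ℚ} (hw : WS w) {a b g : ℕ} (hab : a ≠ b) (hga : g ≠ a)
    (hgb : g ≠ b) (l : List (ℕ × Bool)) :
    ∑ e ∈ ({a, b, g} : Finset ℕ), ∑ f ∈ ({a, b, g} : Finset ℕ).erase e, Dw w e f l =
      2 * (Dw w a b l + (Dw w a g l + Dw w b g l)) := by
  have hba := hab.symm; have hag := hga.symm; have hbg := hgb.symm
  rw [Finset.sum_insert (by simp [hab, hag]), Finset.sum_pair hbg]
  have h1 : ({a, b, g} : Finset ℕ).erase a = {b, g} := by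
    ext x; simp only [Finset.mem_erase, Finset.mem_insert, Finset.mem_singleton]
    constructor
    · rintro ⟨h1, h2⟩; tauto
    · rintro (rfl | rfl)
      · exact ⟨hba, Or.inr (Or.inl rfl)⟩
      · exact ⟨hga, Or.inr (Or.inr rfl)⟩
  have h2 : ({a, b, g} : Finset ℕ).erase b = {a, g} := by
    ext x; simp only [Finset.mem_erase, Finset.mem_insert, Finset.mem_singleton]
    constructor
    · rintro ⟨h1, h2⟩; tauto
    · rintro (rfl | rfl)
      · exact ⟨hab, Or.inl rfl⟩
      · exact ⟨hgb, Or.inr (Or.inr rfl)⟩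
  have h3 : ({a, b, g} : Finset ℕ).erase g = {a, b} := by
    ext x; simp only [Finset.mem_erase, Finset.mem_insert, Finset.mem_singleton]
    constructor
    · rintro ⟨h1, h2⟩; tauto
    · rintro (rfl | rfl)
      · exact ⟨hag, Or.inl rfl⟩
      · exact ⟨hbg, Or.inr (Or.inl rfl)⟩
  rw [h1, h2, h3, Finset.sum_pair hbg, Finset.sum_pair hag, Finset.sum_pair hab,
    Dw_symm hw a b hab, Dw_symm hw a g hag, Dw_symm hw b g hbg]
  ring

/-- The functional, extended linearly. -/
noncomputable def lin (w : List ℕ → ℚ) : (List (ℕ × Bool) →₀ ℚ) →ₗ[ℚ] ℚ :=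
  Finsupp.linearCombination ℚ (Gf w)

lemma lin_single (w : List ℕ → ℚ) (l : List (ℕ × Bool)) : lin w (Finsupp.single l 1) = Gf w l := by
  simp [lin]

/-- `sym` as a linear map. -/
noncomputable def symL (U : Finset ℕ) :
    (List (ℕ × Bool) →₀ ℚ) →ₗ[ℚ] (List (ℕ × Bool) →₀ ℚ) :=
  ∑ T ∈ U.powerset, Finsupp.lmapDomain ℚ ℚ (flip T)

lemma symL_apply (U : Finset ℕ) (x : List (ℕ × Bool) →₀ ℚ) : symL U x = sym U x := by
  simp [symL, sym, LinearMap.sum_apply, Finsupp.lmapDomain_apply]

lemma lin_symL (w : List ℕ → ℚ) (U : Finset ℕ) (l : List (ℕ × Bool)) :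
    lin w (symL U (Finsupp.single l 1)) = ∑ T ∈ U.powerset, Gf w (flip T l) := by
  simp [symL, LinearMap.sum_apply, Finsupp.lmapDomain_apply, Finsupp.mapDomain_single, lin_single]

lemma lin_six {w : List ℕ → ℚ} (hw : WS w) {d : ℕ} {c : List Sym} {i j k : Fin 3} {a b : ℕ}
    (g : ℕ) (hij : i ≠ j) (hik : i ≠ k) (hjk : j ≠ k) (hc : IsCtx c)
    (h : IsA d (fill c (rr i j a i k b))) :
    lin w (sym ((labels c).erase g) (sixT c i j k a b)) = 0 := by
  obtain ⟨hS, hg⟩ := sixData_of hij hik hjk hc h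
  have hab := hS.ab
  have hac : a ∉ labels c := fun h => (hg a h).1 rfl
  have hbc : b ∉ labels c := fun h => (hg b h).2.1 rfl
  rw [← symL_apply]
  unfold sixT
  have hL : ∀ (i j k l : Fin 3), Lb (fill c (rr i j b k l a)) = insert a (insert b (labels c)) := by
    intro i j k l
    rw [Lb_fill hc, Finset.insert_comm]
  have hL' : ∀ (i j k l : Fin 3), Lb (fill c (rr i j a k l b)) = insert a (insert b (labels c)) :=
    fun i j k l => Lb_fill hc i j a k l b
  simp only [map_add, map_sub, lin_symL, sum_Gf hw]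
  rw [hL, hL, hL, hL', hL', hL']
  have P := six_pair hw hS
  by_cases hgl : g ∈ labels c
  · obtain ⟨h1, h2, h3, h4⟩ := hg g hgl
    have hset : insert a (insert b (labels c)) \ (labels c).erase g = {a, b, g} := by
      ext x
      simp only [Finset.mem_sdiff, Finset.mem_insert, Finset.mem_erase, Finset.mem_singleton]
      constructor
      · rintro ⟨(h | h | h), h'⟩
        · exact Or.inl h
        · exact Or.inr (Or.inl h)
        · right; right
          by_contra hxg
          exact h' ⟨hxg, h⟩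
      · rintro (rfl | rfl | rfl)
        · exact ⟨Or.inl rfl, fun h => hac h.2⟩
        · exact ⟨Or.inr (Or.inl rfl), fun h => hbc h.2⟩
        · exact ⟨Or.inr (Or.inr hgl), fun h => h.1 rfl⟩
    rw [hset]
    simp only [sum_three hw hab h1 h2]
    have Z := six_fixed hw hS h1 h2 h3 h4
    set q : ℚ := 2 ^ ((labels c).erase g).card
    linear_combination q * P - q / 3 * Z
  · have hset : insert a (insert b (labels c)) \ (labels c).erase g = {a, b} := by
      rw [Finset.erase_eq_of_notMem hgl]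
      ext x
      simp only [Finset.mem_sdiff, Finset.mem_insert, Finset.mem_singleton]
      constructor
      · rintro ⟨(h | h | h), h'⟩
        · exact Or.inl h
        · exact Or.inr h
        · exact absurd h h'
      · rintro (rfl | rfl)
        · exact ⟨Or.inl rfl, hac⟩
        · exact ⟨Or.inr (Or.inl rfl), hbc⟩
    rw [hset]
    simp only [sum_two hw hab]
    set q : ℚ := 2 ^ ((labels c).erase g).card
    linear_combination q * P

lemma Gf_relabel {w : List ℕ → ℚ} (hw : WS w) (σ : ℕ → ℕ) (hσ : Function.Injective σ)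
    (l : List (ℕ × Bool)) : Gf w (l.map (Prod.map σ id)) = Gf w l := by
  have h1 : (l.map (Prod.map σ id)).map Prod.fst = (l.map Prod.fst).map σ := by
    rw [List.map_map, List.map_map]; rfl
  have h2 : Lb (l.map (Prod.map σ id)) = (Lb l).image σ := by
    unfold Lb
    rw [h1]
    ext x; simp
  have h3 : ∀ e f, Dw w (σ e) (σ f) (l.map (Prod.map σ id)) = Dw w e f l := by
    intro e f
    unfold Dw
    rw [List.map_map, List.map_map]
    have g1 : rho1 (σ e) (σ f) ∘ Prod.map σ id = σ ∘ rho1 e f := by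
      funext ⟨x, y⟩
      simp only [rho1, Function.comp, Prod.map, hσ.eq_iff, id]
      split_ifs <;> rfl
    have g2 : rho2 (σ e) (σ f) ∘ Prod.map σ id = σ ∘ rho2 e f := by
      funext ⟨x, y⟩
      simp only [rho2, Function.comp, Prod.map, hσ.eq_iff, id]
      split_ifs <;> rfl
    rw [g1, g2, ← List.map_map, ← List.map_map, hw.relabel _ σ hσ, hw.relabel _ σ hσ]
  unfold Gf
  rw [h1, hw.relabel _ σ hσ, h2, Finset.sum_image (fun x _ y _ h => hσ h)]
  congr 2
  refine Finset.sum_congr rfl ?_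
  intro e _
  rw [← Finset.image_erase hσ, Finset.sum_image (fun x _ y _ h => hσ h)]
  refine Finset.sum_congr rfl ?_
  intro f _
  exact h3 e f

lemma lin_rel6one {w : List ℕ → ℚ} (hw : WS w) {d : ℕ} {x : List (ℕ × Bool) →₀ ℚ}
    (hx : x ∈ rel6one d) : lin w x = 0 := by
  unfold rel6one at hx
  induction hx using Submodule.span_induction with
  | mem x h =>
    rcases h with ⟨l, σ, _, hσ, rfl⟩ | ⟨c, i, j, k, a, b, g, hij, hik, hjk, hc, h, rfl⟩
    · rw [map_sub, lin_single, lin_single, Gf_relabel hw σ hσ, sub_self]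
    · exact lin_six hw g hij hik hjk hc h
  | zero => exact map_zero _
  | add x y _ _ hx hy => rw [map_add, hx, hy, add_zero]
  | smul r x _ hx => rw [map_smul, hx, smul_zero]

lemma base_fst (w : List ℕ) : (base w).map Prod.fst = w := by
  unfold base
  apply List.ext_getElem
  · simp
  · intro n h1 h2
    simp

lemma card_of_IsC {d : ℕ} {w : List ℕ} (h : IsC d w) : w.toFinset.card = d := by
  have h1 := List.sum_toFinset_count_eq_length w
  rw [Finset.sum_congr rfl (g := fun _ => 2) (fun a ha => h.2 a (List.mem_toFinset.1 ha)),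
    Finset.sum_const, h.1, smul_eq_mul] at h1
  omega

lemma lin_phi {w : List ℕ → ℚ} (hw : WS w) {d : ℕ} {v : List ℕ} (h : IsC d v) :
    lin w (phi (Finsupp.single v 1)) = 2 ^ d * w v := by
  unfold phi
  rw [Finsupp.linearCombination_single, one_smul, map_sum]
  simp_rw [lin_single]
  rw [sum_Gf hw]
  have : Lb (base v) \ v.toFinset = ∅ := by
    unfold Lb
    rw [base_fst, Finset.sdiff_self]
  rw [this, base_fst, card_of_IsC h]
  simp

/-- The first obstruction to the injectivity of `φ_d` vanishes. -/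
theorem first_obstruction (d : ℕ) (x : List ℕ →₀ ℚ)
    (hx : x ∈ Finsupp.supported ℚ ℚ {w | IsC d w}) (h : phi x ∈ rel6one d) : x ∈ rel4 d := by
  classical
  by_contra hn
  obtain ⟨ψ, hψx, hψ⟩ := Submodule.exists_dual_map_eq_bot_of_notMem hn inferInstance
  have hψ0 : ∀ y ∈ rel4 d, ψ y = 0 := by
    intro y hy
    have : ψ y ∈ (rel4 d).map ψ := ⟨y, hy, rfl⟩
    rw [hψ] at this
    exact (Submodule.mem_bot ℚ).1 this
  set w : List ℕ → ℚ := fun l => if IsC d l then ψ (Finsupp.single l 1) else 0 with hwdef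
  have hw : WS w := WS_of ψ hψ0
  have h1 : lin w (phi x) = 0 := lin_rel6one hw h
  have h2 : lin w (phi x) = 2 ^ d * ψ x := by
    have hx1 : x = ∑ v ∈ x.support, x v • Finsupp.single v (1 : ℚ) := by
      conv_lhs => rw [← Finsupp.sum_single x]
      unfold Finsupp.sum
      refine Finset.sum_congr rfl ?_
      intro v _
      simp
    rw [hx1]
    simp only [map_sum, map_smul, Finset.mul_sum]
    refine Finset.sum_congr rfl ?_
    intro v hv
    have hv' : IsC d v := by
      rw [Finsupp.mem_supported] at hx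
      exact hx hv
    rw [lin_phi hw hv']
    have : w v = ψ (Finsupp.single v 1) := by simp [hwdef, hv']
    rw [this]
    simp only [smul_eq_mul]
    ring
  rw [h1] at h2
  apply hψx
  have : (2 : ℚ) ^ d ≠ 0 := by positivity
  exact (mul_eq_zero.1 h2.symm).resolve_left this

end Pool.Agent.ARD
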