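import Mathlib
import Pool.Agent.ARD.Main2

set_option autoImplicit false

namespace Pool.Agent.ARD

open Finset

lemma flip_flip (S T : Finset ℕ) (l : List (ℕ × Bool)) :
    flip S (flip T l) = flip (symmDiff S T) l := by
  unfold flip
  rw [List.map_map]
  apply List.map_congr_left
  rintro ⟨x, y⟩ _
  simp only [Function.comp, Finset.mem_symmDiff, Prod.mk.injEq, true_and]
  by_cases h1 : x ∈ S <;> by_cases h2 : x ∈ T <;> cases y <;> simp [h1, h2]

lemma two_le_count {l : List (ℕ × Bool)} {m n : ℕ} (hm : m < l.length) (hn : n < l.length)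
    (hmn : m ≠ n) (h : l[m] = l[n]) : 2 ≤ l.count l[n] := by
  have hd : List.Duplicate l[n] l := by
    rw [List.duplicate_iff_exists_distinct_get]
    rcases Nat.lt_or_gt_of_ne hmn with hlt | hlt
    · exact ⟨⟨m, hm⟩, ⟨n, hn⟩, hlt, by simpa using h.symm, by simp⟩
    · exact ⟨⟨n, hn⟩, ⟨m, hm⟩, hlt, by simp, by simpa using h.symm⟩
  have hs := List.duplicate_iff_sublist.1 hd
  have := hs.count_le l[n]
  simpa using this

/-- Two valid orientations of a word differ by the reversal of some arrows. -/
lemma exists_flip {l l' : List (ℕ × Bool)} (hfst : l.map Prod.fst = l'.map Prod.fst)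
    (h : ∀ x ∈ l, l.count (x.1, false) = 1 ∧ l.count (x.1, true) = 1)
    (h' : ∀ x ∈ l', l'.count (x.1, false) = 1 ∧ l'.count (x.1, true) = 1) :
    ∃ T ⊆ Lb l, l' = flip T l := by
  classical
  have hlen : l.length = l'.length := by
    have := congrArg List.length hfst
    simpa using this
  refine ⟨(Lb l).filter (fun a => ∃ n, ∃ h1 : n < l.length, ∃ h2 : n < l'.length,
    l[n].1 = a ∧ l[n].2 ≠ l'[n].2), Finset.filter_subset _ _, ?_⟩
  apply List.ext_getElem
  · simp [flip, hlen]
  · intro n h1 h2
    have h3 : n < l.length := by omega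
    have hf : ∀ m (h3 : m < l.length) (h1 : m < l'.length), l[m].1 = l'[m].1 := by
      intro m h3 h1
      have h4 : (l.map Prod.fst)[m]'(by simpa using h3) = (l'.map Prod.fst)[m]'(by simpa using h1) := by
        simp only [hfst]
      simpa using h4
    have hLb : l[n].1 ∈ Lb l := by
      rw [mem_Lb]; exact ⟨l[n].2, List.getElem_mem h3⟩
    unfold flip
    rw [List.getElem_map]
    apply Prod.ext
    · exact (hf n h3 h1).symm
    · simp only
      by_cases heq : l[n].2 = l'[n].2
      · have hnot : ¬ (l[n].1 ∈ (Lb l).filter (fun a => ∃ n, ∃ h1 : n < l.length,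
            ∃ h2 : n < l'.length, l[n].1 = a ∧ l[n].2 ≠ l'[n].2)) := by
          rw [Finset.mem_filter]
          rintro ⟨_, m, hm1, hm2, hm3, hm4⟩
          have hmn : m ≠ n := by rintro rfl; exact hm4 heq
          -- the two occurrences have different directions in both words
          have d1 : l[m].2 ≠ l[n].2 := by
            intro hh
            have e1 : l[m] = l[n] := Prod.ext hm3 hh
            have := h l[n] (List.getElem_mem h3)
            have hc : l.count l[n] = 1 := by
              rcases hb : l[n] with ⟨x, y⟩
              rw [hb] at this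
              cases y
              · exact this.1
              · exact this.2
            have := two_le_count hm1 h3 hmn e1
            omega
          have d2 : l'[m].2 ≠ l'[n].2 := by
            intro hh
            have hm5 : l'[m].1 = l'[n].1 := by
              rw [← hf m hm1 hm2, ← hf n h3 h1]; exact hm3
            have e1 : l'[m] = l'[n] := Prod.ext hm5 hh
            have := h' l'[n] (List.getElem_mem h1)
            have hc : l'.count l'[n] = 1 := by
              rcases hb : l'[n] with ⟨x, y⟩
              rw [hb] at this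
              cases y
              · exact this.1
              · exact this.2
            have := two_le_count hm2 h1 hmn e1
            omega
          revert d1 d2 hm4 heq
          cases l[m].2 <;> cases l[n].2 <;> cases l'[m].2 <;> cases l'[n].2 <;> simp
        simp only [hnot, decide_false, Bool.xor_false]
        exact heq.symm
      · have hyes : (l[n].1 ∈ (Lb l).filter (fun a => ∃ n, ∃ h1 : n < l.length,
            ∃ h2 : n < l'.length, l[n].1 = a ∧ l[n].2 ≠ l'[n].2)) := by
          rw [Finset.mem_filter]
          exact ⟨hLb, n, h3, h1, rfl, heq⟩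
        simp only [hyes, decide_true, Bool.xor_true]
        revert heq
        cases l[n].2 <;> cases l'[n].2 <;> simp

lemma base_append (w : List ℕ) (x : ℕ) : base (w ++ [x]) = base w ++ [(x, decide (x ∈ w))] := by
  unfold base
  rw [List.mapIdx_concat]
  congr 1
  · apply List.ext_getElem
    · simp
    · intro n h1 h2
      simp only [List.length_mapIdx] at h1
      simp [List.take_append_of_le_length h1.le]
  · simp

lemma base_count (w : List ℕ) (a : ℕ) :
    (base w).count (a, false) = (if a ∈ w then 1 else 0) ∧
      (base w).count (a, true) + (if a ∈ w then 1 else 0) = w.count a := by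
  induction w using List.reverseRecOn with
  | nil => simp [base]
  | append_singleton w x ih =>
    rw [base_append]
    simp only [List.count_append, List.mem_append, List.mem_singleton]
    by_cases hx : a = x
    · subst hx
      by_cases hw : a ∈ w
      · simp only [hw, if_true] at ih
        simp [hw, ih.1]
        omega
      · simp only [hw, if_false] at ih
        simp [hw, ih.1]
        omega
    · have hx' : x ≠ a := Ne.symm hx
      simp only [hx, or_false]
      rw [ih.1]
      refine ⟨?_, ?_⟩
      · simp [hx']
      · simp [hx']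
        exact ih.2

lemma base_valid {w : List ℕ} (h : ∀ a ∈ w, w.count a = 2) :
    ∀ x ∈ base w, (base w).count (x.1, false) = 1 ∧ (base w).count (x.1, true) = 1 := by
  intro x hx
  have hxw : x.1 ∈ w := by
    rw [← base_fst w]
    exact List.mem_map_of_mem hx
  have h1 := base_count w x.1
  have h2 := h x.1 hxw
  simp only [hxw, if_true] at h1
  refine ⟨h1.1, by omega⟩

lemma sum_flip (L S : Finset ℕ) (hS : S ⊆ L) (l : List (ℕ × Bool)) :
    ∑ T ∈ L.powerset, Finsupp.single (flip T (flip S l)) (1 : ℚ) =
      ∑ T ∈ L.powerset, Finsupp.single (flip T l) (1 : ℚ) := by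
  refine Finset.sum_nbij' (fun T => symmDiff T S) (fun T => symmDiff T S) ?_ ?_ ?_ ?_ ?_
  · intro T hT
    rw [Finset.mem_powerset] at hT ⊢
    intro x hx
    rw [Finset.mem_symmDiff] at hx
    rcases hx with h | h
    · exact hT h.1
    · exact hS h.1
  · intro T hT
    rw [Finset.mem_powerset] at hT ⊢
    intro x hx
    rw [Finset.mem_symmDiff] at hx
    rcases hx with h | h
    · exact hT h.1
    · exact hS h.1
  · intro T _; simp
  · intro T _; simp
  · intro T _
    rw [flip_flip]

/-- `φ` can be computed from any valid orientation. -/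
lemma phi_single {l : List (ℕ × Bool)}
    (h : ∀ x ∈ l, l.count (x.1, false) = 1 ∧ l.count (x.1, true) = 1)
    (hc : ∀ a ∈ l.map Prod.fst, (l.map Prod.fst).count a = 2) :
    phi (Finsupp.single (l.map Prod.fst) 1) =
      ∑ T ∈ (Lb l).powerset, Finsupp.single (flip T l) (1 : ℚ) := by
  unfold phi
  rw [Finsupp.linearCombination_single, one_smul]
  obtain ⟨S, hS, hb⟩ := exists_flip (l := l) (l' := base (l.map Prod.fst)) (by rw [base_fst]) h
    (base_valid hc)
  rw [hb]
  exact sum_flip (Lb l) S hS l

/-- Validity of an arrow word without the length. -/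
def Val (l : List (ℕ × Bool)) : Prop :=
  ∀ x ∈ l, l.count (x.1, false) = 1 ∧ l.count (x.1, true) = 1

lemma count_fst (l : List (ℕ × Bool)) (a : ℕ) :
    (l.map Prod.fst).count a = l.count (a, false) + l.count (a, true) := by
  induction l with
  | nil => simp
  | cons x l ih =>
    rcases x with ⟨x, y⟩
    rw [List.map_cons, List.count_cons, List.count_cons, List.count_cons, ih]
    by_cases h : x = a
    · subst h
      cases y <;> simp <;> ring
    · simp [h]

lemma Val.two {l : List (ℕ × Bool)} (h : Val l) :
    ∀ a ∈ l.map Prod.fst, (l.map Prod.fst).count a = 2 := by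
  intro a ha
  rw [List.mem_map] at ha
  obtain ⟨x, hx, rfl⟩ := ha
  have := h x hx
  rw [count_fst, this.1, this.2]

lemma IsA_iff {d : ℕ} {l : List (ℕ × Bool)} : IsA d l ↔ l.length = 2 * d ∧ Val l := Iff.rfl

lemma IsA.isC {d : ℕ} {l : List (ℕ × Bool)} (h : IsA d l) : IsC d (l.map Prod.fst) :=
  ⟨by rw [List.length_map]; exact h.1, Val.two h.2⟩

lemma base_isA {d : ℕ} {w : List ℕ} (h : IsC d w) : IsA d (base w) :=
  ⟨by simp [base, h.1], base_valid h.2⟩

lemma IsA.phi {d : ℕ} {l : List (ℕ × Bool)} (h : IsA d l) :
    ARD.phi (Finsupp.single (l.map Prod.fst) 1) =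
      ∑ T ∈ (Lb l).powerset, Finsupp.single (flip T l) (1 : ℚ) :=
  phi_single h.2 (Val.two h.2)

end Pool.Agent.ARD
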