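import Mathlib
import Pool.Agent.ARD.Phi

set_option autoImplicit false

namespace Pool.Agent.ARD

open Finset

/-- Lift a context to an oriented one. -/
lemma lift_ctx (c : List (Fin 3 ⊕ ℕ)) (R : List (ℕ × Bool))
    (h : R.map Prod.fst = c.filterMap Sum.getRight?) :
    ∃ c' : List Sym, c'.map (Sum.map id Prod.fst) = c ∧ c'.filterMap Sum.getRight? = R := by
  induction c generalizing R with
  | nil =>
    refine ⟨[], rfl, ?_⟩
    have h' : R.map Prod.fst = [] := by simpa using h
    simpa using (List.map_eq_nil_iff.1 h').symm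
  | cons x c ih =>
    rcases x with m | x
    · rw [List.filterMap_cons_none (by rfl)] at h
      obtain ⟨c', h1, h2⟩ := ih R h
      refine ⟨Sum.inl m :: c', by simp [h1], ?_⟩
      rw [List.filterMap_cons_none (by rfl), h2]
    · rw [List.filterMap_cons_some (b := x) (by rfl)] at h
      rcases R with _ | ⟨y, R⟩
      · simp at h
      · rw [List.map_cons, List.cons.injEq] at h
        obtain ⟨c', h1, h2⟩ := ih R h.2
        refine ⟨Sum.inr y :: c', by simp [h1, h.1], ?_⟩
        rw [List.filterMap_cons_some (b := y) (by rfl), h2]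

lemma left_map {α β : Type*} (c : List (Fin 3 ⊕ α)) (g : α → β) :
    (c.map (Sum.map id g)).filterMap Sum.getLeft? = c.filterMap Sum.getLeft? := by
  rw [List.filterMap_map]
  congr 1
  funext x
  rcases x with m | x <;> rfl

lemma right_map {α β : Type*} (c : List (Fin 3 ⊕ α)) (g : α → β) :
    (c.map (Sum.map id g)).filterMap Sum.getRight? = (c.filterMap Sum.getRight?).map g := by
  rw [List.filterMap_map, List.map_filterMap]
  congr 1
  funext x
  rcases x with m | x <;> rfl

lemma IsCtx_map {α β : Type*} {c : List (Fin 3 ⊕ α)} (g : α → β) (h : IsCtx c) :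
    IsCtx (c.map (Sum.map id g)) := by
  intro m
  rw [left_map]
  exact h m

lemma fill_map {α β : Type*} (c : List (Fin 3 ⊕ α)) (g : α → β) (f : Fin 3 → List α) :
    (fill c f).map g = fill (c.map (Sum.map id g)) (fun m => (f m).map g) := by
  unfold fill
  rw [List.map_flatMap, List.flatMap_map]
  congr 1
  funext x
  rcases x with m | x <;> rfl

lemma rr_fst {i j k l : Fin 3} (hij : i ≠ j) (hkl : k ≠ l) (a b : ℕ) (m : Fin 3) :
    (rr i j a k l b m).map Prod.fst = tt i j a k l b m := by
  unfold rr tt
  rw [List.map_append, List.map_append, List.map_append]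
  congr 1
  · by_cases h1 : m = i
    · subst h1; simp [hij]
    · by_cases h2 : m = j
      · subst h2; simp [h1]
      · simp [h1, h2]
  · by_cases h1 : m = k
    · subst h1; simp [hkl]
    · by_cases h2 : m = l
      · subst h2; simp [h1]
      · simp [h1, h2]

/-- Reverse the fixed arrows with labels in `T`. -/
def flipC (T : Finset ℕ) (c : List Sym) : List Sym :=
  c.map (Sum.map id (fun p => (p.1, xor p.2 (decide (p.1 ∈ T)))))

lemma flip_fill (T : Finset ℕ) (c : List Sym) (f : Fin 3 → List (ℕ × Bool)) :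
    flip T (fill c f) = fill (flipC T c) (fun m => flip T (f m)) := by
  unfold flip flipC
  rw [fill_map]

lemma flip_rr {i j k l : Fin 3} (hij : i ≠ j) (hkl : k ≠ l) (a b : ℕ) (T : Finset ℕ) (m : Fin 3) :
    flip T (rr i j a k l b m) = rr (if a ∈ T then j else i) (if a ∈ T then i else j) a
      (if b ∈ T then l else k) (if b ∈ T then k else l) b m := by
  have key : ∀ {i j : Fin 3} (_ : i ≠ j) (a : ℕ),
      ((if m = i then [(a, false)] else []) ++ (if m = j then [(a, true)] else []) :
        List (ℕ × Bool)).map (fun p => (p.1, xor p.2 (decide (p.1 ∈ T)))) =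
      (if m = (if a ∈ T then j else i) then [(a, false)] else []) ++
        (if m = (if a ∈ T then i else j) then [(a, true)] else []) := by
    intro i j hij a
    by_cases ha : a ∈ T
    · by_cases h1 : m = i
      · have h2 : m ≠ j := fun h => hij (h1.symm.trans h)
        simp [h1, ha, hij]
      · by_cases h2 : m = j
        · simp [h2, ha, hij.symm]
        · simp [h1, h2, ha]
    · by_cases h1 : m = i
      · have h2 : m ≠ j := fun h => hij (h1.symm.trans h)
        simp [h1, ha, hij]
      · by_cases h2 : m = j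
        · simp [h2, ha, hij.symm]
        · simp [h1, h2, ha]
  unfold flip rr
  rw [List.map_append, key hij a, key hkl b]

lemma flip_Val {T : Finset ℕ} {l : List (ℕ × Bool)} (h : Val l) : Val (flip T l) := by
  have hinj : Function.Injective (fun p : ℕ × Bool => (p.1, xor p.2 (decide (p.1 ∈ T)))) := by
    rintro ⟨x, y⟩ ⟨x', y'⟩ h
    simp only [Prod.mk.injEq] at h
    obtain ⟨rfl, h2⟩ := h
    by_cases hx : x ∈ T <;> simp [hx] at h2 <;> simp [h2]
  intro x hx
  unfold flip at hx ⊢
  rw [List.mem_map] at hx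
  obtain ⟨y, hy, rfl⟩ := hx
  have h1 := h y hy
  have e : ∀ b : Bool, (l.map (fun p : ℕ × Bool => (p.1, xor p.2 (decide (p.1 ∈ T))))).count (y.1, b)
      = l.count (y.1, xor b (decide (y.1 ∈ T))) := by
    intro b
    rw [← List.count_map_of_injective l _ hinj]
    congr 1
    simp
  simp only [e]
  by_cases hy1 : y.1 ∈ T
  · simp only [hy1, decide_true]
    exact ⟨h1.2, h1.1⟩
  · simp only [hy1, decide_false]
    exact ⟨h1.1, h1.2⟩

lemma flip_isA {d : ℕ} {T : Finset ℕ} {l : List (ℕ × Bool)} (h : IsA d l) : IsA d (flip T l) :=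
  ⟨by unfold flip; rw [List.length_map]; exact h.1, flip_Val h.2⟩

lemma rel6_relabel {d : ℕ} {l : List (ℕ × Bool)} (h : IsA d l) {σ : ℕ → ℕ}
    (hσ : Function.Injective σ) :
    Finsupp.single l (1 : ℚ) - Finsupp.single (l.map (Prod.map σ id)) 1 ∈ rel6 d :=
  Submodule.subset_span (Or.inl ⟨l, σ, h, hσ, rfl⟩)

/-- all arrow words with the same arcs are valid together -/
lemma isA_fill {d : ℕ} {c : List Sym} (hc : IsCtx c) {i j k l i' j' k' l' : Fin 3} {a b a' b' : ℕ}
    (h : IsA d (fill c (rr i j a k l b)))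
    (hy : ∀ y, [(a, false), (a, true), (b, false), (b, true)].count y =
      [(a', false), (a', true), (b', false), (b', true)].count y) :
    IsA d (fill c (rr i' j' a' k' l' b')) := by
  have hp : (fill c (rr i j a k l b)).Perm (fill c (rr i' j' a' k' l' b')) := by
    rw [List.perm_iff_count]
    intro y
    rw [count_fill' hc, count_fill' hc, sum_rr, sum_rr, hy]
  refine ⟨by rw [← hp.length_eq]; exact h.1, ?_⟩
  intro x hx
  rw [← hp.count_eq, ← hp.count_eq]
  exact h.2 x (hp.mem_iff.2 hx)

lemma swap_rel {d : ℕ} {c : List Sym} {a b : ℕ}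
    (na : ∀ x : ℕ × Bool, Sum.inr x ∈ c → x.1 ≠ a) (nb : ∀ x : ℕ × Bool, Sum.inr x ∈ c → x.1 ≠ b)
    (p q r s : Fin 3) (h : IsA d (fill c (rr p q a r s b))) :
    Finsupp.single (fill c (rr p q a r s b)) (1 : ℚ) -
      Finsupp.single (fill c (rr p q b r s a)) 1 ∈ rel6 d := by
  have := rel6_relabel h (Equiv.swap a b).injective
  have e : (fill c (rr p q a r s b)).map (Prod.map (Equiv.swap a b) id) =
      fill c (rr p q b r s a) := by
    rw [fill_map]
    have e1 : c.map (Sum.map id (Prod.map (Equiv.swap a b) id)) = c := by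
      conv_rhs => rw [← List.map_id c]
      apply List.map_congr_left
      rintro (m | ⟨x, y⟩) hx
      · rfl
      · have h1 := na _ hx
        have h2 := nb _ hx
        simp only [Sum.map_inr, Prod.map, id, Sum.inr.injEq, Prod.mk.injEq, and_true]
        exact Equiv.swap_apply_of_ne_of_ne h1 h2
    rw [e1]
    congr 1
    funext m
    unfold rr
    simp only [List.map_append]
    have hif : ∀ (t : Fin 3) (x : ℕ × Bool),
        List.map (Prod.map (Equiv.swap a b) id) (if m = t then [x] else []) =
          if m = t then [Prod.map (Equiv.swap a b) id x] else [] := by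
      intro t x
      by_cases ht : m = t
      · rw [if_pos ht, if_pos ht]; rfl
      · rw [if_neg ht, if_neg ht]; rfl
    rw [hif, hif, hif, hif]
    simp only [Prod.map, id, Equiv.swap_apply_left, Equiv.swap_apply_right]
  rw [e] at this
  exact this

/-- The 4T relation is mapped into the 6T relations: one orientation of the fixed chords. -/
lemma bracket_mem {d : ℕ} {c : List Sym} {i j k : Fin 3} {a b : ℕ} (hij : i ≠ j) (hik : i ≠ k)
    (hjk : j ≠ k) (hc : IsCtx c) (h : IsA d (fill c (rr i j a i k b))) :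
    (Finsupp.single (fill c (rr i j a i k b)) (1 : ℚ) + Finsupp.single (fill c (rr i j a k i b)) 1 +
      (Finsupp.single (fill c (rr j i a i k b)) 1 + Finsupp.single (fill c (rr j i a k i b)) 1)) -
    (Finsupp.single (fill c (rr i k b i j a)) 1 + Finsupp.single (fill c (rr k i b i j a)) 1 +
      (Finsupp.single (fill c (rr i k b j i a)) 1 + Finsupp.single (fill c (rr k i b j i a)) 1)) +
    ((Finsupp.single (fill c (rr i j a j k b)) 1 + Finsupp.single (fill c (rr i j a k j b)) 1 +
      (Finsupp.single (fill c (rr j i a j k b)) 1 + Finsupp.single (fill c (rr j i a k j b)) 1)) -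
    (Finsupp.single (fill c (rr j k b i j a)) 1 + Finsupp.single (fill c (rr k j b i j a)) 1 +
      (Finsupp.single (fill c (rr j k b j i a)) 1 + Finsupp.single (fill c (rr k j b j i a)) 1)))
      ∈ rel6 d := by
  obtain ⟨hS, -⟩ := sixData_of hij hik hjk hc h
  have hab : ∀ p q r s : Fin 3, IsA d (fill c (rr p q a r s b)) := fun p q r s =>
    isA_fill hc h (fun y => rfl)
  have hba : ∀ p q r s : Fin 3, IsA d (fill c (rr p q b r s a)) := fun p q r s =>
    isA_fill hc h (fun y => by simp [List.count_cons]; ring)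
  have s1 : sixT c i j k a b ∈ rel6 d :=
    Submodule.subset_span (Or.inr ⟨c, i, j, k, a, b, hij, hik, hjk, hc, hab _ _ _ _, rfl⟩)
  have s2 : sixT c j i k a b ∈ rel6 d :=
    Submodule.subset_span (Or.inr ⟨c, j, i, k, a, b, hij.symm, hjk, hik, hc, hab _ _ _ _, rfl⟩)
  have s3 : sixT c k i j b a ∈ rel6 d :=
    Submodule.subset_span (Or.inr ⟨c, k, i, j, b, a, hik.symm, hjk.symm, hij, hc, hba _ _ _ _, rfl⟩)
  have s4 : sixT c k j i b a ∈ rel6 d :=
    Submodule.subset_span (Or.inr ⟨c, k, j, i, b, a, hjk.symm, hik.symm, hij.symm, hc,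
      hba _ _ _ _, rfl⟩)
  have r1 := swap_rel hS.na hS.nb i k j k (hab i k j k)
  have r2 := swap_rel hS.na hS.nb j k i k (hab j k i k)
  have r3 := swap_rel hS.na hS.nb k i k j (hab k i k j)
  have r4 := swap_rel hS.na hS.nb k j k i (hab k j k i)
  have := Submodule.sub_mem _ (Submodule.sub_mem _ (Submodule.sub_mem _ (Submodule.sub_mem _
    (Submodule.sub_mem _ (Submodule.sub_mem _ (Submodule.add_mem _ s1 s2) s3) s4) r1) r2) r3) r4
  convert this using 1
  unfold sixT
  abel

end Pool.Agent.ARD
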