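import Mathlib
import Pool.Agent.ARD.PhiRel

set_option autoImplicit false

namespace Pool.Agent.ARD

open Finset

lemma flip_map (T : Finset ℕ) {σ : ℕ → ℕ} (hσ : Function.Injective σ) (l : List (ℕ × Bool)) :
    flip (T.image σ) (l.map (Prod.map σ id)) = (flip T l).map (Prod.map σ id) := by
  unfold flip
  rw [List.map_map, List.map_map]
  apply List.map_congr_left
  rintro ⟨x, y⟩ _
  have h : σ x ∈ T.image σ ↔ x ∈ T := by
    rw [Finset.mem_image]
    constructor
    · rintro ⟨z, hz, hzx⟩; rw [← hσ hzx]; exact hz
    · intro hx; exact ⟨x, hx, rfl⟩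
  simp only [Function.comp, Prod.map, id, h]

lemma Val_map {σ : ℕ → ℕ} (hσ : Function.Injective σ) {l : List (ℕ × Bool)} (h : Val l) :
    Val (l.map (Prod.map σ id)) := by
  intro x hx
  rw [List.mem_map] at hx
  obtain ⟨y, hy, rfl⟩ := hx
  have hinj : Function.Injective (Prod.map σ (id : Bool → Bool)) := hσ.prodMap Function.injective_id
  have e : ∀ b : Bool, (l.map (Prod.map σ id)).count ((Prod.map σ id y).1, b) = l.count (y.1, b) := by
    intro b
    rw [← List.count_map_of_injective l _ hinj (y.1, b)]
    rfl
  rw [e, e]
  exact h y hy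

lemma isA_map {d : ℕ} {σ : ℕ → ℕ} (hσ : Function.Injective σ) {l : List (ℕ × Bool)} (h : IsA d l) :
    IsA d (l.map (Prod.map σ id)) :=
  ⟨by rw [List.length_map]; exact h.1, Val_map hσ h.2⟩

lemma phi_relabel {d : ℕ} {w : List ℕ} (hw : IsC d w) {σ : ℕ → ℕ} (hσ : Function.Injective σ) :
    phi (Finsupp.single w (1 : ℚ) - Finsupp.single (w.map σ) 1) ∈ rel6 d := by
  have h1 := IsA.phi (base_isA hw)
  have h2 := IsA.phi (isA_map hσ (base_isA hw))
  have e2 : ((base w).map (Prod.map σ id)).map Prod.fst = w.map σ := by
    rw [List.map_map]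
    have : (Prod.fst ∘ Prod.map σ (id : Bool → Bool)) = σ ∘ Prod.fst := rfl
    rw [this, ← List.map_map, base_fst]
  rw [base_fst] at h1
  rw [e2] at h2
  have e3 : Lb ((base w).map (Prod.map σ id)) = (Lb (base w)).image σ := by
    unfold Lb
    rw [e2, base_fst]
    ext x
    simp
  rw [map_sub, h1, h2, e3]
  have e4 : ∑ T ∈ ((Lb (base w)).image σ).powerset,
      Finsupp.single (flip T ((base w).map (Prod.map σ id))) (1 : ℚ) =
      ∑ T ∈ (Lb (base w)).powerset, Finsupp.single ((flip T (base w)).map (Prod.map σ id)) (1 : ℚ) := by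
    rw [Finset.powerset_image, Finset.sum_image]
    · refine Finset.sum_congr rfl ?_
      intro T _
      rw [flip_map T hσ]
    · intro S _ T _ h
      exact Finset.image_injective hσ h
  rw [e4, ← Finset.sum_sub_distrib]
  exact Submodule.sum_mem _ (fun T _ => rel6_relabel (flip_isA (base_isA hw)) hσ)

lemma flipC_insert {c : List Sym} {a : ℕ} (ha : a ∉ labels c) (T : Finset ℕ) :
    flipC (insert a T) c = flipC T c := by
  unfold flipC
  apply List.map_congr_left
  rintro (m | ⟨x, y⟩) hx
  · rfl
  · have hxa : x ≠ a := by
      rintro rfl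
      apply ha
      rw [mem_labels]
      exact ⟨y, by rw [List.mem_filterMap]; exact ⟨_, hx, rfl⟩⟩
    simp [Finset.mem_insert, hxa]

lemma phi_fill {d : ℕ} {c : List Sym} {p q r s : Fin 3} {a b : ℕ} (hpq : p ≠ q) (hrs : r ≠ s)
    (hc : IsCtx c) (hab : a ≠ b) (ha : a ∉ labels c) (hb : b ∉ labels c)
    (h : IsA d (fill c (rr p q a r s b))) :
    phi (Finsupp.single (fill (c.map (Sum.map id Prod.fst)) (tt p q a r s b)) 1) =
      ∑ T ∈ (labels c).powerset,
        (Finsupp.single (fill (flipC T c) (rr p q a r s b)) (1 : ℚ) +
          Finsupp.single (fill (flipC T c) (rr p q a s r b)) 1 +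
          (Finsupp.single (fill (flipC T c) (rr q p a r s b)) 1 +
            Finsupp.single (fill (flipC T c) (rr q p a s r b)) 1)) := by
  have e1 : (fill c (rr p q a r s b)).map Prod.fst =
      fill (c.map (Sum.map id Prod.fst)) (tt p q a r s b) := by
    rw [fill_map]
    congr 1
    funext m
    exact rr_fst hpq hrs a b m
  rw [← e1, IsA.phi h, Lb_fill hc]
  have ha' : a ∉ insert b (labels c) := by
    rw [Finset.mem_insert]; push Not; exact ⟨hab, ha⟩
  rw [Finset.sum_powerset_insert ha', Finset.sum_powerset_insert hb, Finset.sum_powerset_insert hb,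
    ← Finset.sum_add_distrib, ← Finset.sum_add_distrib, ← Finset.sum_add_distrib]
  refine Finset.sum_congr rfl ?_
  intro T hT
  rw [Finset.mem_powerset] at hT
  have haT : a ∉ T := fun h => ha (hT h)
  have hbT : b ∉ T := fun h => hb (hT h)
  have hf : ∀ S, flip S (fill c (rr p q a r s b)) = fill (flipC S c)
      (rr (if a ∈ S then q else p) (if a ∈ S then p else q) a
      (if b ∈ S then s else r) (if b ∈ S then r else s) b) := by
    intro S
    rw [flip_fill]
    congr 1
    funext m
    exact flip_rr hpq hrs a b S m
  have hbaT : b ∉ insert a T := by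
    rw [Finset.mem_insert]; push Not; exact ⟨hab.symm, hbT⟩
  have habT : a ∉ insert b T := by
    rw [Finset.mem_insert]; push Not; exact ⟨hab, haT⟩
  simp only [hf, flipC_insert ha, flipC_insert hb, haT, hbT, hbaT, habT, if_false, if_true,
    Finset.mem_insert_self, Finset.mem_insert_of_mem]

/-- The left part of the 4T relation, lifted. -/
lemma lift4 {d : ℕ} {c : List (Fin 3 ⊕ ℕ)} {i j k : Fin 3} {a b : ℕ} (hij : i ≠ j) (hik : i ≠ k)
    (hc : IsCtx c) (h : IsC d (fill c (tt i j a i k b))) :
    ∃ c' : List Sym, c'.map (Sum.map id Prod.fst) = c ∧ IsCtx c' ∧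
      IsA d (fill c' (rr i j a i k b)) := by
  have hcount : ∀ y, (fill c (tt i j a i k b)).count y =
      [a, a, b, b].count y + (c.filterMap Sum.getRight?).count y := by
    intro y; rw [count_fill' hc, sum_tt i j hij a i k hik b]
  have hmem : ∀ y, y ∈ fill c (tt i j a i k b) ↔ 0 < (fill c (tt i j a i k b)).count y :=
    fun y => List.count_pos_iff.symm
  have ha : a ∈ fill c (tt i j a i k b) := by rw [hmem, hcount]; simp
  have hb : b ∈ fill c (tt i j a i k b) := by rw [hmem, hcount]; simp
  have ha' := h.2 _ ha
  have hb' := h.2 _ hb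
  rw [hcount] at ha' hb'
  have hab : a ≠ b := by
    rintro rfl
    simp at ha'
    omega
  have hba := hab.symm
  have na : (c.filterMap Sum.getRight?).count a = 0 := by
    simpa [hab, hba] using ha'
  have nb : (c.filterMap Sum.getRight?).count b = 0 := by
    simpa [hab, hba] using hb'
  set R := c.filterMap Sum.getRight? with hR
  have hR2 : ∀ x ∈ R, R.count x = 2 := by
    intro x hx
    have hxa : x ≠ a := by
      rintro rfl; rw [List.count_eq_zero] at na; exact na hx
    have hxb : x ≠ b := by
      rintro rfl; rw [List.count_eq_zero] at nb; exact nb hx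
    have h1 : x ∈ fill c (tt i j a i k b) := by
      rw [hmem, hcount]
      have := List.count_pos_iff.2 hx
      omega
    have h2 := h.2 x h1
    rw [hcount] at h2
    have h3 : [a, a, b, b].count x = 0 := by
      rw [List.count_eq_zero]; simp [hxa, hxb]
    omega
  obtain ⟨c', h1, h2⟩ := lift_ctx c (base R) (base_fst R)
  have hc' : IsCtx c' := by
    intro m
    have := hc m
    rw [← h1, left_map] at this
    exact this
  refine ⟨c', h1, hc', ?_, ?_⟩
  · have e1 : (fill c' (rr i j a i k b)).map Prod.fst = fill c (tt i j a i k b) := by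
      rw [fill_map, h1]
      congr 1
      funext m
      exact rr_fst hij hik a b m
    have := congrArg List.length e1
    rw [List.length_map] at this
    rw [this]; exact h.1
  · have hbv := base_valid hR2
    have hcf : ∀ y, (fill c' (rr i j a i k b)).count y =
        [(a, false), (a, true), (b, false), (b, true)].count y + (base R).count y := by
      intro y; rw [count_fill' hc', sum_rr, h2]
    have hz : ∀ x, R.count x = 0 → ∀ t, (base R).count (x, t) = 0 := by
      intro x hx t
      rw [List.count_eq_zero] at hx ⊢
      intro hm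
      apply hx
      have := List.mem_map_of_mem (f := Prod.fst) hm
      rwa [base_fst] at this
    intro x hx
    have hx0 : 0 < (fill c' (rr i j a i k b)).count x := List.count_pos_iff.2 hx
    rw [hcf] at hx0
    rw [hcf, hcf]
    by_cases hxa : x.1 = a
    · rw [hxa, hz a na, hz a na]
      simp [hab, hba]
    · by_cases hxb : x.1 = b
      · rw [hxb, hz b nb, hz b nb]
        simp [hab, hba]
      · have h3 : ∀ t, [(a, false), (a, true), (b, false), (b, true)].count (x.1, t) = 0 := by
          intro t
          rw [List.count_eq_zero]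
          simp [hxa, hxb]
        rw [h3, h3]
        have h4 : [(a, false), (a, true), (b, false), (b, true)].count x = 0 := by
          have := h3 x.2
          simpa using this
        rw [h4, zero_add, List.count_pos_iff] at hx0
        have := hbv x hx0
        rw [zero_add, zero_add]
        exact this

/-- `φ` maps the 4T relations into the 6T relations. -/
theorem phi_rel4 {d : ℕ} {x : List ℕ →₀ ℚ} (hx : x ∈ rel4 d) : phi x ∈ rel6 d := by
  have hle : rel4 d ≤ (rel6 d).comap phi := by
    unfold rel4
    rw [Submodule.span_le]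
    rintro x (⟨w, σ, hw, hσ, rfl⟩ | ⟨c, i, j, k, a, b, hij, hik, hjk, hc, h, rfl⟩)
    · exact phi_relabel hw hσ
    · obtain ⟨c', h1, hc', hA⟩ := lift4 hij hik hc h
      obtain ⟨hS, -⟩ := sixData_of hij hik hjk hc' hA
      have hna : a ∉ labels c' := by
        rw [mem_labels]
        rintro ⟨y, hy⟩
        rw [List.mem_filterMap] at hy
        obtain ⟨t, ht, hty⟩ := hy
        rcases t with m | t
        · simp at hty
        · simp at hty; subst hty; exact hS.na _ ht rfl
      have hnb : b ∉ labels c' := by
        rw [mem_labels]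
        rintro ⟨y, hy⟩
        rw [List.mem_filterMap] at hy
        obtain ⟨t, ht, hty⟩ := hy
        rcases t with m | t
        · simp at hty
        · simp at hty; subst hty; exact hS.nb _ ht rfl
      have hab : ∀ p q r s : Fin 3, IsA d (fill c' (rr p q a r s b)) := fun p q r s =>
        isA_fill hc' hA (fun y => rfl)
      have hba : ∀ p q r s : Fin 3, IsA d (fill c' (rr p q b r s a)) := fun p q r s =>
        isA_fill hc' hA (fun y => by simp [List.count_cons]; ring)
      show phi (fourT c i j k a b) ∈ rel6 d
      unfold fourT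
      rw [← h1, map_add, map_sub, map_sub, phi_fill hij hik hc' hS.ab hna hnb (hab _ _ _ _),
        phi_fill hik hij hc' hS.ab.symm hnb hna (hba _ _ _ _),
        phi_fill hij hjk hc' hS.ab hna hnb (hab _ _ _ _),
        phi_fill hjk hij hc' hS.ab.symm hnb hna (hba _ _ _ _), ← Finset.sum_sub_distrib,
        ← Finset.sum_sub_distrib, ← Finset.sum_add_distrib]
      refine Submodule.sum_mem _ ?_
      intro T hT
      rw [Finset.mem_powerset] at hT
      have haT : a ∉ T := fun h => hna (hT h)
      have hbT : b ∉ T := fun h => hnb (hT h)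
      have hcT : IsCtx (flipC T c') := IsCtx_map _ hc'
      have hAT : IsA d (fill (flipC T c') (rr i j a i k b)) := by
        have := flip_isA (T := T) hA
        rw [flip_fill] at this
        have e : (fun m => flip T (rr i j a i k b m)) = rr i j a i k b := by
          funext m
          rw [flip_rr hij hik]
          simp only [haT, hbT, if_false]
        rw [e] at this
        exact this
      have := bracket_mem hij hik hjk hcT hAT
      convert this using 1
      abel
  exact hle hx

end Pool.Agent.ARD
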