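import Mathlib
import Pool.Agent.ARD.Defs2
import Pool.Agent.ARD.Rel4

set_option autoImplicit false

namespace Pool.Agent.ARD

open Finset

/-- Put an isolated chord in front. -/
def th (w : List ℕ) : List ℕ := 0 :: 0 :: w.map Nat.succ

/-- Put an isolated arrow in front. -/
def th6 (t : Bool) (l : List (ℕ × Bool)) : List (ℕ × Bool) :=
  (0, t) :: (0, !t) :: l.map (Prod.map Nat.succ id)

noncomputable def thL : (List ℕ →₀ ℚ) →ₗ[ℚ] (List ℕ →₀ ℚ) := Finsupp.lmapDomain ℚ ℚ th

noncomputable def th6L (t : Bool) : (List (ℕ × Bool) →₀ ℚ) →ₗ[ℚ] (List (ℕ × Bool) →₀ ℚ) :=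
  Finsupp.lmapDomain ℚ ℚ (th6 t)

noncomputable def sL : (List (ℕ × Bool) →₀ ℚ) →ₗ[ℚ] (List (ℕ × Bool) →₀ ℚ) :=
  th6L false + th6L true

lemma thL_single (w : List ℕ) (q : ℚ) : thL (Finsupp.single w q) = Finsupp.single (th w) q := by
  unfold thL; rw [Finsupp.lmapDomain_apply, Finsupp.mapDomain_single]

lemma th6L_single (t : Bool) (l : List (ℕ × Bool)) (q : ℚ) :
    th6L t (Finsupp.single l q) = Finsupp.single (th6 t l) q := by
  unfold th6L; rw [Finsupp.lmapDomain_apply, Finsupp.mapDomain_single]

/-- extend a relabelling by `0 ↦ 0` -/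
def up (σ : ℕ → ℕ) : ℕ → ℕ
  | 0 => 0
  | n + 1 => σ n + 1

lemma up_inj {σ : ℕ → ℕ} (hσ : Function.Injective σ) : Function.Injective (up σ) := by
  intro x y h
  rcases x with _ | x <;> rcases y with _ | y
  · rfl
  · simp [up] at h
  · simp [up] at h
  · simp only [up, Nat.add_right_cancel_iff] at h
    rw [hσ h]

lemma th_map (σ : ℕ → ℕ) (w : List ℕ) : th (w.map σ) = (th w).map (up σ) := by
  unfold th
  simp only [List.map_cons, List.map_map, up, List.cons.injEq, true_and]
  apply List.map_congr_left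
  intro x _
  rfl

lemma th6_map (t : Bool) (σ : ℕ → ℕ) (l : List (ℕ × Bool)) :
    th6 t (l.map (Prod.map σ id)) = (th6 t l).map (Prod.map (up σ) id) := by
  unfold th6
  simp only [List.map_cons, List.map_map, up, List.cons.injEq, Prod.map, id, true_and]
  apply List.map_congr_left
  intro x _
  rfl

lemma isC_th {d : ℕ} {w : List ℕ} (h : IsC d w) : IsC (d + 1) (th w) := by
  refine ⟨?_, ?_⟩
  · unfold th
    simp only [List.length_cons, List.length_map, h.1]
    ring
  · intro a ha
    unfold th at ha ⊢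
    rcases a with _ | a
    · simp only [List.count_cons_self]
      have : (w.map Nat.succ).count 0 = 0 := by
        rw [List.count_eq_zero]; simp
      rw [this]
    · have ha' : a ∈ w := by simpa using ha
      have e : (w.map Nat.succ).count (a + 1) = w.count a :=
        List.count_map_of_injective w Nat.succ Nat.succ_injective a
      rw [List.count_cons_of_ne (by simp), List.count_cons_of_ne (by simp), e]
      exact h.2 a ha'

lemma isA_th6 {d : ℕ} (t : Bool) {l : List (ℕ × Bool)} (h : IsA d l) : IsA (d + 1) (th6 t l) := by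
  have hv := Val_map Nat.succ_injective h.2
  have h0 : ∀ s : Bool, (l.map (Prod.map Nat.succ id)).count (0, s) = 0 := by
    intro s
    rw [List.count_eq_zero]
    intro hm
    rw [List.mem_map] at hm
    obtain ⟨y, -, hy⟩ := hm
    simp [Prod.map] at hy
  refine ⟨?_, ?_⟩
  · unfold th6
    simp only [List.length_cons, List.length_map, h.1]
    ring
  · intro x hx
    unfold th6 at hx ⊢
    simp only [List.mem_cons] at hx
    by_cases hx0 : x.1 = 0
    · rw [hx0]
      simp only [List.count_cons, h0]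
      cases t <;> simp
    · have hxm : x ∈ l.map (Prod.map Nat.succ id) := by
        rcases hx with rfl | rfl | hx
        · exact absurd rfl hx0
        · exact absurd rfl hx0
        · exact hx
      have := hv x hxm
      have hne : ∀ s : Bool, ∀ u : Bool, ((0, u) : ℕ × Bool) ≠ (x.1, s) := by
        intro s u he
        exact hx0 (by simpa using (congrArg Prod.fst he).symm)
      rw [List.count_cons_of_ne (hne _ _), List.count_cons_of_ne (hne _ _),
        List.count_cons_of_ne (hne _ _), List.count_cons_of_ne (hne _ _)]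
      exact this

/-- the context with an isolated chord in front -/
def thC (c : List (Fin 3 ⊕ ℕ)) : List (Fin 3 ⊕ ℕ) :=
  Sum.inr 0 :: Sum.inr 0 :: c.map (Sum.map id Nat.succ)

def thC6 (t : Bool) (c : List Sym) : List Sym :=
  Sum.inr (0, t) :: Sum.inr (0, !t) :: c.map (Sum.map id (Prod.map Nat.succ id))

lemma tt_succ (i j : Fin 3) (a : ℕ) (k l : Fin 3) (b : ℕ) (m : Fin 3) :
    (tt i j a k l b m).map Nat.succ = tt i j (a + 1) k l (b + 1) m := by
  unfold tt
  rw [List.map_append]
  congr 1
  · split_ifs <;> rfl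
  · split_ifs <;> rfl

lemma rr_succ (i j : Fin 3) (a : ℕ) (k l : Fin 3) (b : ℕ) (m : Fin 3) :
    (rr i j a k l b m).map (Prod.map Nat.succ id) = rr i j (a + 1) k l (b + 1) m := by
  have hif : ∀ (t : Fin 3) (x : ℕ × Bool),
      List.map (Prod.map Nat.succ id) (if m = t then [x] else []) =
        if m = t then [Prod.map Nat.succ id x] else [] := by
    intro t x
    by_cases ht : m = t
    · rw [if_pos ht, if_pos ht]; rfl
    · rw [if_neg ht, if_neg ht]; rfl
  unfold rr
  simp only [List.map_append]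
  rw [hif, hif, hif, hif]
  rfl

lemma th_fill (c : List (Fin 3 ⊕ ℕ)) (i j : Fin 3) (a : ℕ) (k l : Fin 3) (b : ℕ) :
    th (fill c (tt i j a k l b)) = fill (thC c) (tt i j (a + 1) k l (b + 1)) := by
  unfold th thC
  rw [fill_map]
  have e : (fun m => (tt i j a k l b m).map Nat.succ) = tt i j (a + 1) k l (b + 1) := by
    funext m; exact tt_succ i j a k l b m
  rw [e]
  rfl

lemma th6_fill (t : Bool) (c : List Sym) (i j : Fin 3) (a : ℕ) (k l : Fin 3) (b : ℕ) :
    th6 t (fill c (rr i j a k l b)) = fill (thC6 t c) (rr i j (a + 1) k l (b + 1)) := by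
  unfold th6 thC6
  rw [fill_map]
  have e : (fun m => (rr i j a k l b m).map (Prod.map Nat.succ id)) =
      rr i j (a + 1) k l (b + 1) := by
    funext m; exact rr_succ i j a k l b m
  rw [e]
  rfl

lemma IsCtx_thC {c : List (Fin 3 ⊕ ℕ)} (h : IsCtx c) : IsCtx (thC c) := by
  intro m
  unfold thC
  rw [List.filterMap_cons_none (by rfl), List.filterMap_cons_none (by rfl)]
  exact IsCtx_map _ h m

lemma IsCtx_thC6 (t : Bool) {c : List Sym} (h : IsCtx c) : IsCtx (thC6 t c) := by
  intro m
  unfold thC6
  rw [List.filterMap_cons_none (by rfl), List.filterMap_cons_none (by rfl)]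
  exact IsCtx_map _ h m

lemma thL_fourT (c : List (Fin 3 ⊕ ℕ)) (i j k : Fin 3) (a b : ℕ) :
    thL (fourT c i j k a b) = fourT (thC c) i j k (a + 1) (b + 1) := by
  unfold fourT
  simp only [map_add, map_sub, thL_single, th_fill]

lemma th6L_sixT (t : Bool) (c : List Sym) (i j k : Fin 3) (a b : ℕ) :
    th6L t (sixT c i j k a b) = sixT (thC6 t c) i j k (a + 1) (b + 1) := by
  unfold sixT
  simp only [map_add, map_sub, th6L_single, th6_fill]

lemma thL_rel4 {d : ℕ} {x : List ℕ →₀ ℚ} (hx : x ∈ rel4 d) : thL x ∈ rel4 (d + 1) := by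
  have hle : rel4 d ≤ (rel4 (d + 1)).comap thL := by
    conv_lhs => unfold rel4
    rw [Submodule.span_le]
    rintro x (⟨w, σ, hw, hσ, rfl⟩ | ⟨c, i, j, k, a, b, hij, hik, hjk, hc, h, rfl⟩)
    · show thL _ ∈ rel4 (d + 1)
      rw [map_sub, thL_single, thL_single, th_map]
      exact Submodule.subset_span (Or.inl ⟨th w, up σ, isC_th hw, up_inj hσ, rfl⟩)
    · show thL _ ∈ rel4 (d + 1)
      rw [thL_fourT]
      refine Submodule.subset_span (Or.inr ⟨thC c, i, j, k, a + 1, b + 1, hij, hik, hjk,
        IsCtx_thC hc, ?_, rfl⟩)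
      rw [← th_fill]
      exact isC_th h
  exact hle hx

lemma th6L_rel6 (t : Bool) {d : ℕ} {x : List (ℕ × Bool) →₀ ℚ} (hx : x ∈ rel6 d) :
    th6L t x ∈ rel6 (d + 1) := by
  have hle : rel6 d ≤ (rel6 (d + 1)).comap (th6L t) := by
    conv_lhs => unfold rel6
    rw [Submodule.span_le]
    rintro x (⟨w, σ, hw, hσ, rfl⟩ | ⟨c, i, j, k, a, b, hij, hik, hjk, hc, h, rfl⟩)
    · show th6L t _ ∈ rel6 (d + 1)
      rw [map_sub, th6L_single, th6L_single, th6_map]
      exact Submodule.subset_span (Or.inl ⟨th6 t w, up σ, isA_th6 t hw, up_inj hσ, rfl⟩)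
    · show th6L t _ ∈ rel6 (d + 1)
      rw [th6L_sixT]
      refine Submodule.subset_span (Or.inr ⟨thC6 t c, i, j, k, a + 1, b + 1, hij, hik, hjk,
        IsCtx_thC6 t hc, ?_, rfl⟩)
      rw [← th6_fill]
      exact isA_th6 t h
  exact hle hx

lemma sL_rel6 {d : ℕ} {x : List (ℕ × Bool) →₀ ℚ} (hx : x ∈ rel6 d) : sL x ∈ rel6 (d + 1) := by
  unfold sL
  rw [LinearMap.add_apply]
  exact Submodule.add_mem _ (th6L_rel6 false hx) (th6L_rel6 true hx)

/-- `φ(θ w) = s φ(w)` -/
lemma phi_th {d : ℕ} {w : List ℕ} (hw : IsC d w) :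
    phi (Finsupp.single (th w) 1) = sL (phi (Finsupp.single w 1)) := by
  have hb := base_isA hw
  have h1 := IsA.phi hb
  have h2 := IsA.phi (isA_th6 false hb)
  rw [base_fst] at h1
  have e2 : (th6 false (base w)).map Prod.fst = th w := by
    unfold th6 th
    simp only [List.map_cons, List.map_map, List.cons.injEq, true_and]
    have : (Prod.fst ∘ Prod.map Nat.succ (id : Bool → Bool)) = Nat.succ ∘ Prod.fst := rfl
    rw [this, ← List.map_map, base_fst]
  rw [e2] at h2
  have e3 : Lb (th6 false (base w)) = insert 0 ((Lb (base w)).image Nat.succ) := by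
    unfold Lb
    rw [e2, base_fst]
    unfold th
    ext x
    simp
  have h0 : (0 : ℕ) ∉ (Lb (base w)).image Nat.succ := by simp
  rw [h1, h2, e3, Finset.sum_powerset_insert h0, Finset.powerset_image,
    Finset.sum_image (fun S _ T _ h => Finset.image_injective Nat.succ_injective h),
    Finset.sum_image (fun S _ T _ h => Finset.image_injective Nat.succ_injective h)]
  unfold sL
  rw [LinearMap.add_apply, map_sum, map_sum]
  congr 1
  · refine Finset.sum_congr rfl ?_
    intro T _
    rw [th6L_single]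
    congr 1
    have := flip_map T Nat.succ_injective (base w)
    unfold th6
    rw [← this]
    unfold flip
    simp
  · refine Finset.sum_congr rfl ?_
    intro T _
    rw [th6L_single]
    congr 1
    have := flip_map T Nat.succ_injective (base w)
    unfold th6
    rw [← this]
    unfold flip
    simp only [List.map_cons, List.map_map, Finset.mem_insert, true_or, decide_true,
      Bool.xor_true, Bool.not_false, Bool.not_true, List.cons.injEq, true_and]
    apply List.map_congr_left
    rintro ⟨x, y⟩ _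
    simp

lemma phi_thL {d : ℕ} {x : List ℕ →₀ ℚ} (hx : x ∈ Finsupp.supported ℚ ℚ {w : List ℕ | IsC d w}) :
    phi (thL x) = sL (phi x) := by
  rw [Finsupp.mem_supported] at hx
  have e : x = ∑ w ∈ x.support, x w • Finsupp.single w (1 : ℚ) := by
    conv_lhs => rw [← Finsupp.sum_single x]
    unfold Finsupp.sum
    refine Finset.sum_congr rfl ?_
    intro w _
    rw [Finsupp.smul_single_one]
  rw [e]
  simp only [map_sum, map_smul, thL_single]
  refine Finset.sum_congr rfl ?_
  intro w hw
  rw [phi_th (hx hw)]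

end Pool.Agent.ARD
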