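import Mathlib
import Pool.Agent.ARD.Theta

set_option autoImplicit false

namespace Pool.Agent.ARD

open Finset

/-- Remove the chord `a`. -/
def rm (a : ℕ) (w : List ℕ) : List ℕ := w.filter (fun x => decide (x ≠ a))

/-- Remove the arrow `a`. -/
def rm6 (a : ℕ) (l : List (ℕ × Bool)) : List (ℕ × Bool) := l.filter (fun x => decide (x.1 ≠ a))

noncomputable def D4L : (List ℕ →₀ ℚ) →ₗ[ℚ] (List ℕ →₀ ℚ) :=
  Finsupp.linearCombination ℚ (fun w : List ℕ => ∑ a ∈ w.toFinset, Finsupp.single (rm a w) (1 : ℚ))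

noncomputable def D6L : (List (ℕ × Bool) →₀ ℚ) →ₗ[ℚ] (List (ℕ × Bool) →₀ ℚ) :=
  Finsupp.linearCombination ℚ
    (fun l : List (ℕ × Bool) => ∑ a ∈ Lb l, Finsupp.single (rm6 a l) (1 : ℚ))

lemma D4L_single (w : List ℕ) :
    D4L (Finsupp.single w 1) = ∑ a ∈ w.toFinset, Finsupp.single (rm a w) (1 : ℚ) := by
  unfold D4L
  rw [Finsupp.linearCombination_single, one_smul]

lemma D6L_single (l : List (ℕ × Bool)) :
    D6L (Finsupp.single l 1) = ∑ a ∈ Lb l, Finsupp.single (rm6 a l) (1 : ℚ) := by
  unfold D6L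
  rw [Finsupp.linearCombination_single, one_smul]

/-- remove a chord from a context -/
def rmC {α : Type*} (P : α → Bool) (c : List (Fin 3 ⊕ α)) : List (Fin 3 ⊕ α) :=
  c.filter (Sum.elim (fun _ => true) P)

lemma fill_filter {α : Type*} (P : α → Bool) (c : List (Fin 3 ⊕ α)) (f : Fin 3 → List α) :
    (fill c f).filter P = fill (rmC P c) (fun m => (f m).filter P) := by
  unfold fill rmC
  induction c with
  | nil => rfl
  | cons x c ih =>
    rw [List.flatMap_cons, List.filter_append, ih]
    rcases x with m | x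
    · rw [List.filter_cons_of_pos (by rfl), List.flatMap_cons]
      rfl
    · by_cases hx : P x
      · rw [List.filter_cons_of_pos (by simpa using hx), List.flatMap_cons]
        congr 1
        simp [hx]
      · rw [List.filter_cons_of_neg (by simpa using hx)]
        simp [hx]

lemma IsCtx_rmC {α : Type*} (P : α → Bool) {c : List (Fin 3 ⊕ α)} (h : IsCtx c) :
    IsCtx (rmC P c) := by
  intro m
  rw [← h m]
  congr 1
  unfold rmC
  clear h
  induction c with
  | nil => rfl
  | cons x c ih =>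
    rcases x with m | x
    · rw [List.filter_cons_of_pos (by rfl), List.filterMap_cons_some (b := m) (by rfl),
        List.filterMap_cons_some (b := m) (by rfl), ih]
    · by_cases hx : P x
      · rw [List.filter_cons_of_pos (by simpa using hx), List.filterMap_cons_none (by rfl),
          List.filterMap_cons_none (by rfl), ih]
      · rw [List.filter_cons_of_neg (by simpa using hx), List.filterMap_cons_none (by rfl), ih]

lemma length_rm {d : ℕ} {w : List ℕ} (h : IsC (d + 1) w) {a : ℕ} (ha : a ∈ w) :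
    (rm a w).length = 2 * d := by
  have h1 := List.length_eq_length_filter_add (l := w) (fun x => decide (x ≠ a))
  have h2 : (w.filter (fun x => !decide (x ≠ a))).length = w.count a := by
    rw [List.count_eq_length_filter]
    congr 2
    funext x
    simp only [ne_eq, decide_not, Bool.not_not]
    exact (beq_eq_decide _ _).symm
  rw [h2, h.2 a ha, h.1] at h1
  unfold rm
  omega

lemma isC_rm {d : ℕ} {w : List ℕ} (h : IsC (d + 1) w) {a : ℕ} (ha : a ∈ w) : IsC d (rm a w) := by
  refine ⟨length_rm h ha, ?_⟩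
  intro x hx
  unfold rm at hx ⊢
  rw [List.mem_filter] at hx
  rw [List.count_filter (by exact hx.2)]
  exact h.2 x hx.1

lemma rm6_fst (a : ℕ) (l : List (ℕ × Bool)) : (rm6 a l).map Prod.fst = rm a (l.map Prod.fst) := by
  unfold rm6 rm
  rw [List.filter_map]
  rfl

lemma isA_rm6 {d : ℕ} {l : List (ℕ × Bool)} (h : IsA (d + 1) l) {a : ℕ} (ha : a ∈ Lb l) :
    IsA d (rm6 a l) := by
  refine ⟨?_, ?_⟩
  · have h1 := length_rm (IsA.isC h) (a := a) (by unfold Lb at ha; rwa [List.mem_toFinset] at ha)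
    rw [← rm6_fst, List.length_map] at h1
    exact h1
  · intro x hx
    unfold rm6 at hx ⊢
    rw [List.mem_filter] at hx
    have h2 : x.1 ≠ a := by simpa using hx.2
    rw [List.count_filter (by simpa using h2), List.count_filter (by simpa using h2)]
    exact h.2 x hx.1

lemma rm_map (a : ℕ) {σ : ℕ → ℕ} (hσ : Function.Injective σ) (w : List ℕ) :
    rm (σ a) (w.map σ) = (rm a w).map σ := by
  unfold rm
  rw [List.filter_map]
  congr 1
  apply List.filter_congr
  intro x _
  simp [hσ.eq_iff]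

lemma rm6_map (a : ℕ) {σ : ℕ → ℕ} (hσ : Function.Injective σ) (l : List (ℕ × Bool)) :
    rm6 (σ a) (l.map (Prod.map σ id)) = (rm6 a l).map (Prod.map σ id) := by
  unfold rm6
  rw [List.filter_map]
  congr 1
  apply List.filter_congr
  intro x _
  simp [hσ.eq_iff]

lemma rel4_relabel {d : ℕ} {w : List ℕ} (h : IsC d w) {σ : ℕ → ℕ} (hσ : Function.Injective σ) :
    Finsupp.single w (1 : ℚ) - Finsupp.single (w.map σ) 1 ∈ rel4 d :=
  Submodule.subset_span (Or.inl ⟨w, σ, h, hσ, rfl⟩)

lemma Lb_map {σ : ℕ → ℕ} (l : List (ℕ × Bool)) :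
    Lb (l.map (Prod.map σ id)) = (Lb l).image σ := by
  unfold Lb
  ext x
  simp

/-- the words of the tensors with one chord -/
def t1 (i j : Fin 3) (a : ℕ) (m : Fin 3) : List ℕ := if m = i ∨ m = j then [a] else []

lemma tt_rm_other {i j k l : Fin 3} {a b g : ℕ} (ha : a ≠ g) (hb : b ≠ g) (m : Fin 3) :
    rm g (tt i j a k l b m) = tt i j a k l b m := by
  unfold rm
  rw [List.filter_eq_self]
  intro x hx
  unfold tt at hx
  rw [List.mem_append] at hx
  rcases hx with hx | hx
  · split_ifs at hx <;> simp at hx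
    subst hx; simpa using ha
  · split_ifs at hx <;> simp at hx
    subst hx; simpa using hb

lemma tt_rm_left {i j k l : Fin 3} {a b : ℕ} (hab : a ≠ b) (m : Fin 3) :
    rm a (tt i j a k l b m) = t1 k l b m := by
  unfold rm tt t1
  rw [List.filter_append]
  split_ifs <;> simp [hab.symm]

lemma tt_rm_right {i j k l : Fin 3} {a b : ℕ} (hab : a ≠ b) (m : Fin 3) :
    rm b (tt i j a k l b m) = t1 i j a m := by
  unfold rm tt t1
  rw [List.filter_append]
  split_ifs <;> simp [hab]

lemma rm_fill_other {c : List (Fin 3 ⊕ ℕ)} {i j k l : Fin 3} {a b g : ℕ} (ha : a ≠ g) (hb : b ≠ g) :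
    rm g (fill c (tt i j a k l b)) =
      fill (rmC (fun x => decide (x ≠ g)) c) (tt i j a k l b) := by
  unfold rm
  rw [fill_filter]
  congr 1
  funext m
  exact tt_rm_other ha hb m

lemma rm_fill_left {c : List (Fin 3 ⊕ ℕ)} {i j k l : Fin 3} {a b : ℕ} (hab : a ≠ b) :
    rm a (fill c (tt i j a k l b)) =
      fill (rmC (fun x => decide (x ≠ a)) c) (t1 k l b) := by
  unfold rm
  rw [fill_filter]
  congr 1
  funext m
  exact tt_rm_left hab m

lemma rm_fill_right {c : List (Fin 3 ⊕ ℕ)} {i j k l : Fin 3} {a b : ℕ} (hab : a ≠ b) :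
    rm b (fill c (tt i j a k l b)) =
      fill (rmC (fun x => decide (x ≠ b)) c) (t1 i j a) := by
  unfold rm
  rw [fill_filter]
  congr 1
  funext m
  exact tt_rm_right hab m

lemma rights4 {d : ℕ} {c : List (Fin 3 ⊕ ℕ)} {i j k : Fin 3} {a b : ℕ} (hij : i ≠ j) (hik : i ≠ k)
    (hc : IsCtx c) (h : IsC d (fill c (tt i j a i k b))) :
    a ≠ b ∧ a ∉ c.filterMap Sum.getRight? ∧ b ∉ c.filterMap Sum.getRight? := by
  have hcount : ∀ y, (fill c (tt i j a i k b)).count y =
      [a, a, b, b].count y + (c.filterMap Sum.getRight?).count y := by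
    intro y; rw [count_fill' hc, sum_tt i j hij a i k hik b]
  have hmem : ∀ y, y ∈ fill c (tt i j a i k b) ↔ 0 < (fill c (tt i j a i k b)).count y :=
    fun y => List.count_pos_iff.symm
  have ha' := h.2 a (by rw [hmem, hcount]; simp)
  have hb' := h.2 b (by rw [hmem, hcount]; simp)
  rw [hcount] at ha' hb'
  have hab : a ≠ b := by
    rintro rfl
    simp at ha'
    omega
  refine ⟨hab, ?_, ?_⟩
  · rw [← List.count_eq_zero]
    have h2 : [a, a, b, b].count a = 2 := by simp [hab.symm]
    omega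
  · rw [← List.count_eq_zero]
    have h2 : [a, a, b, b].count b = 2 := by simp [hab]
    omega

lemma toFinset_fill {c : List (Fin 3 ⊕ ℕ)} (hc : IsCtx c) {i j : Fin 3} (hij : i ≠ j) (a : ℕ)
    {k l : Fin 3} (hkl : k ≠ l) (b : ℕ) :
    (fill c (tt i j a k l b)).toFinset = insert a (insert b (c.filterMap Sum.getRight?).toFinset) := by
  ext x
  rw [List.mem_toFinset, Finset.mem_insert, Finset.mem_insert, List.mem_toFinset,
    ← List.count_pos_iff, count_fill' hc, sum_tt i j hij a k l hkl b, ← List.count_pos_iff]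
  constructor
  · intro h
    by_cases hxa : x = a
    · exact Or.inl hxa
    · by_cases hxb : x = b
      · exact Or.inr (Or.inl hxb)
      · right; right
        have h2 : [a, a, b, b].count x = 0 := by
          rw [List.count_eq_zero]; simp [hxa, hxb]
        omega
  · rintro (rfl | rfl | h)
    · simp
    · simp
    · omega

/-- sum of the deletions of one word of a 4T relation -/
lemma D4L_fill {c : List (Fin 3 ⊕ ℕ)} (hc : IsCtx c) {p q r s : Fin 3} {a b : ℕ}
    (hpq : p ≠ q) (hrs : r ≠ s) (hab : a ≠ b) (ha : a ∉ c.filterMap Sum.getRight?)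
    (hb : b ∉ c.filterMap Sum.getRight?) :
    D4L (Finsupp.single (fill c (tt p q a r s b)) 1) =
      Finsupp.single (fill (rmC (fun x => decide (x ≠ a)) c) (t1 r s b)) 1 +
      (Finsupp.single (fill (rmC (fun x => decide (x ≠ b)) c) (t1 p q a)) 1 +
      ∑ g ∈ (c.filterMap Sum.getRight?).toFinset,
        Finsupp.single (fill (rmC (fun x => decide (x ≠ g)) c) (tt p q a r s b)) (1 : ℚ)) := by
  have ha' : a ∉ insert b (c.filterMap Sum.getRight?).toFinset := by
    rw [Finset.mem_insert, List.mem_toFinset]; push Not; exact ⟨hab, ha⟩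
  have hb' : b ∉ (c.filterMap Sum.getRight?).toFinset := by
    rw [List.mem_toFinset]; exact hb
  rw [D4L_single, toFinset_fill hc hpq a hrs b, Finset.sum_insert ha', Finset.sum_insert hb',
    rm_fill_left hab, rm_fill_right hab]
  congr 2
  refine Finset.sum_congr rfl ?_
  intro g hg
  rw [List.mem_toFinset] at hg
  rw [rm_fill_other]
  · rintro rfl; exact ha hg
  · rintro rfl; exact hb hg

lemma t1_symm (i j : Fin 3) (a : ℕ) : t1 i j a = t1 j i a := by
  funext m
  unfold t1
  simp only [or_comm]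

lemma D4L_fourT {d : ℕ} {c : List (Fin 3 ⊕ ℕ)} {i j k : Fin 3} {a b : ℕ} (hij : i ≠ j)
    (hik : i ≠ k) (hjk : j ≠ k) (hc : IsCtx c) (h : IsC (d + 1) (fill c (tt i j a i k b))) :
    D4L (fourT c i j k a b) ∈ rel4 d := by
  obtain ⟨hab, ha, hb⟩ := rights4 hij hik hc h
  have hE : D4L (fourT c i j k a b) = ∑ g ∈ (c.filterMap Sum.getRight?).toFinset,
      fourT (rmC (fun x => decide (x ≠ g)) c) i j k a b := by
    unfold fourT
    rw [map_add, map_sub, map_sub, D4L_fill hc hij hik hab ha hb,
      D4L_fill hc hik hij hab.symm hb ha, D4L_fill hc hij hjk hab ha hb,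
      D4L_fill hc hjk hij hab.symm hb ha]
    simp only [Finset.sum_add_distrib, Finset.sum_sub_distrib]
    abel
  rw [hE]
  refine Submodule.sum_mem _ ?_
  intro g hg
  rw [List.mem_toFinset] at hg
  have hga : a ≠ g := by rintro rfl; exact ha hg
  have hgb : b ≠ g := by rintro rfl; exact hb hg
  refine Submodule.subset_span (Or.inr ⟨_, i, j, k, a, b, hij, hik, hjk, IsCtx_rmC _ hc, ?_, rfl⟩)
  rw [← rm_fill_other hga hgb]
  apply isC_rm h
  have : g ∈ (fill c (tt i j a i k b)).toFinset := by
    rw [toFinset_fill hc hij a hik b, Finset.mem_insert, Finset.mem_insert, List.mem_toFinset]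
    exact Or.inr (Or.inr hg)
  rwa [List.mem_toFinset] at this

lemma D4L_rel4 {d : ℕ} {x : List ℕ →₀ ℚ} (hx : x ∈ rel4 (d + 1)) : D4L x ∈ rel4 d := by
  have hle : rel4 (d + 1) ≤ (rel4 d).comap D4L := by
    conv_lhs => unfold rel4
    rw [Submodule.span_le]
    rintro x (⟨w, σ, hw, hσ, rfl⟩ | ⟨c, i, j, k, a, b, hij, hik, hjk, hc, h, rfl⟩)
    · show D4L _ ∈ rel4 d
      rw [map_sub, D4L_single, D4L_single]
      have e1 : (w.map σ).toFinset = w.toFinset.image σ := by
        ext x; simp
      rw [e1, Finset.sum_image (fun x _ y _ h => hσ h), ← Finset.sum_sub_distrib]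
      refine Submodule.sum_mem _ ?_
      intro a ha
      rw [rm_map a hσ]
      exact rel4_relabel (isC_rm hw (by rwa [List.mem_toFinset] at ha)) hσ
    · exact D4L_fourT hij hik hjk hc h
  exact hle hx

end Pool.Agent.ARD
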