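import Mathlib
import Pool.Agent.ARD.Del

set_option autoImplicit false

namespace Pool.Agent.ARD

open Finset

/-- the words of the tensors with one arrow -/
def r1 (i j : Fin 3) (a : ℕ) (m : Fin 3) : List (ℕ × Bool) :=
  (if m = i then [(a, false)] else []) ++ (if m = j then [(a, true)] else [])

lemma rm6_append (g : ℕ) (l l' : List (ℕ × Bool)) : rm6 g (l ++ l') = rm6 g l ++ rm6 g l' := by
  unfold rm6; rw [List.filter_append]

lemma rm6_r1_other {i j : Fin 3} {a g : ℕ} (ha : a ≠ g) (m : Fin 3) :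
    rm6 g (r1 i j a m) = r1 i j a m := by
  unfold rm6 r1
  rw [List.filter_eq_self]
  intro x hx
  rw [List.mem_append] at hx
  rcases hx with hx | hx
  · split_ifs at hx <;> simp at hx
    subst hx; simpa using ha
  · split_ifs at hx <;> simp at hx
    subst hx; simpa using ha

lemma rm6_r1_self {i j : Fin 3} {a : ℕ} (m : Fin 3) : rm6 a (r1 i j a m) = [] := by
  unfold rm6 r1
  rw [List.filter_eq_nil_iff]
  intro x hx
  rw [List.mem_append] at hx
  rcases hx with hx | hx
  · split_ifs at hx <;> simp at hx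
    subst hx; simp
  · split_ifs at hx <;> simp at hx
    subst hx; simp

lemma rr_eq (i j : Fin 3) (a : ℕ) (k l : Fin 3) (b : ℕ) (m : Fin 3) :
    rr i j a k l b m = r1 i j a m ++ r1 k l b m := rfl

lemma rm6_fill_other {c : List Sym} {i j k l : Fin 3} {a b g : ℕ} (ha : a ≠ g) (hb : b ≠ g) :
    rm6 g (fill c (rr i j a k l b)) =
      fill (rmC (fun x => decide (x.1 ≠ g)) c) (rr i j a k l b) := by
  unfold rm6
  rw [fill_filter]
  congr 1
  funext m
  have := rm6_append g (r1 i j a m) (r1 k l b m)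
  rw [rm6_r1_other ha, rm6_r1_other hb] at this
  exact this

lemma rm6_fill_left {c : List Sym} {i j k l : Fin 3} {a b : ℕ} (hab : a ≠ b) :
    rm6 a (fill c (rr i j a k l b)) =
      fill (rmC (fun x => decide (x.1 ≠ a)) c) (r1 k l b) := by
  unfold rm6
  rw [fill_filter]
  congr 1
  funext m
  have := rm6_append a (r1 i j a m) (r1 k l b m)
  rw [rm6_r1_self, rm6_r1_other hab.symm, List.nil_append] at this
  exact this

lemma rm6_fill_right {c : List Sym} {i j k l : Fin 3} {a b : ℕ} (hab : a ≠ b) :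
    rm6 b (fill c (rr i j a k l b)) =
      fill (rmC (fun x => decide (x.1 ≠ b)) c) (r1 i j a) := by
  unfold rm6
  rw [fill_filter]
  congr 1
  funext m
  have := rm6_append b (r1 i j a m) (r1 k l b m)
  rw [rm6_r1_self, rm6_r1_other hab, List.append_nil] at this
  exact this

lemma D6L_fill {c : List Sym} (hc : IsCtx c) {p q r s : Fin 3} {a b : ℕ}
    (hab : a ≠ b) (ha : a ∉ labels c) (hb : b ∉ labels c) :
    D6L (Finsupp.single (fill c (rr p q a r s b)) 1) =
      Finsupp.single (fill (rmC (fun x => decide (x.1 ≠ a)) c) (r1 r s b)) 1 +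
      (Finsupp.single (fill (rmC (fun x => decide (x.1 ≠ b)) c) (r1 p q a)) 1 +
      ∑ g ∈ labels c,
        Finsupp.single (fill (rmC (fun x => decide (x.1 ≠ g)) c) (rr p q a r s b)) (1 : ℚ)) := by
  have ha' : a ∉ insert b (labels c) := by
    rw [Finset.mem_insert]; push Not; exact ⟨hab, ha⟩
  rw [D6L_single, Lb_fill hc, Finset.sum_insert ha', Finset.sum_insert hb,
    rm6_fill_left hab, rm6_fill_right hab]
  congr 2
  refine Finset.sum_congr rfl ?_
  intro g hg
  rw [rm6_fill_other]
  · rintro rfl; exact ha hg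
  · rintro rfl; exact hb hg

lemma notin_labels {c : List Sym} {a : ℕ} (h : ∀ x : ℕ × Bool, Sum.inr x ∈ c → x.1 ≠ a) :
    a ∉ labels c := by
  rw [mem_labels]
  rintro ⟨y, hy⟩
  rw [List.mem_filterMap] at hy
  obtain ⟨t, ht, hty⟩ := hy
  rcases t with m | t
  · simp at hty
  · simp at hty; subst hty; exact h _ ht rfl

lemma D6L_sixT {d : ℕ} {c : List Sym} {i j k : Fin 3} {a b : ℕ} (hij : i ≠ j)
    (hik : i ≠ k) (hjk : j ≠ k) (hc : IsCtx c) (h : IsA (d + 1) (fill c (rr i j a i k b))) :
    D6L (sixT c i j k a b) ∈ rel6 d := by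
  obtain ⟨hS, -⟩ := sixData_of hij hik hjk hc h
  have hab := hS.ab
  have ha := notin_labels hS.na
  have hb := notin_labels hS.nb
  have hE : D6L (sixT c i j k a b) = ∑ g ∈ labels c,
      sixT (rmC (fun x => decide (x.1 ≠ g)) c) i j k a b := by
    unfold sixT
    simp only [map_add, map_sub, D6L_fill hc hab ha hb, D6L_fill hc hab.symm hb ha,
      Finset.sum_add_distrib, Finset.sum_sub_distrib]
    abel
  rw [hE]
  refine Submodule.sum_mem _ ?_
  intro g hg
  have hga : a ≠ g := by rintro rfl; exact ha hg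
  have hgb : b ≠ g := by rintro rfl; exact hb hg
  refine Submodule.subset_span (Or.inr ⟨_, i, j, k, a, b, hij, hik, hjk, IsCtx_rmC _ hc, ?_, rfl⟩)
  rw [← rm6_fill_other hga hgb]
  apply isA_rm6 h
  rw [Lb_fill hc, Finset.mem_insert, Finset.mem_insert]
  exact Or.inr (Or.inr hg)

lemma D6L_rel6 {d : ℕ} {x : List (ℕ × Bool) →₀ ℚ} (hx : x ∈ rel6 (d + 1)) : D6L x ∈ rel6 d := by
  have hle : rel6 (d + 1) ≤ (rel6 d).comap D6L := by
    conv_lhs => unfold rel6
    rw [Submodule.span_le]
    rintro x (⟨w, σ, hw, hσ, rfl⟩ | ⟨c, i, j, k, a, b, hij, hik, hjk, hc, h, rfl⟩)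
    · show D6L _ ∈ rel6 d
      rw [map_sub, D6L_single, D6L_single, Lb_map, Finset.sum_image (fun x _ y _ h => hσ h),
        ← Finset.sum_sub_distrib]
      refine Submodule.sum_mem _ ?_
      intro a ha
      rw [rm6_map a hσ]
      exact rel6_relabel (isA_rm6 hw ha) hσ
    · exact D6L_sixT hij hik hjk hc h
  exact hle hx

/-! The operators on words with an isolated chord in front. -/

lemma rm_th_zero (w : List ℕ) : rm 0 (th w) = w.map Nat.succ := by
  unfold rm th
  rw [List.filter_cons_of_neg (by simp), List.filter_cons_of_neg (by simp), List.filter_eq_self]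
  intro x hx
  rw [List.mem_map] at hx
  obtain ⟨y, -, rfl⟩ := hx
  simp

lemma rm_th_succ (a : ℕ) (w : List ℕ) : rm (a + 1) (th w) = th (rm a w) := by
  have h := rm_map a Nat.succ_injective w
  unfold th
  rw [← h]
  unfold rm
  rw [List.filter_cons_of_pos (by simp), List.filter_cons_of_pos (by simp)]

lemma rm6_th_zero (t : Bool) (l : List (ℕ × Bool)) :
    rm6 0 (th6 t l) = l.map (Prod.map Nat.succ id) := by
  unfold rm6 th6
  rw [List.filter_cons_of_neg (by simp), List.filter_cons_of_neg (by simp), List.filter_eq_self]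
  intro x hx
  rw [List.mem_map] at hx
  obtain ⟨y, -, rfl⟩ := hx
  simp

lemma rm6_th_succ (t : Bool) (a : ℕ) (l : List (ℕ × Bool)) :
    rm6 (a + 1) (th6 t l) = th6 t (rm6 a l) := by
  have h := rm6_map a Nat.succ_injective l
  unfold th6
  rw [← h]
  unfold rm6
  rw [List.filter_cons_of_pos (by simp), List.filter_cons_of_pos (by simp)]

lemma D4L_th {w : List ℕ} : D4L (thL (Finsupp.single w 1)) =
    Finsupp.single (w.map Nat.succ) 1 + thL (D4L (Finsupp.single w 1)) := by
  have e : (th w).toFinset = insert 0 (w.toFinset.image Nat.succ) := by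
    unfold th; ext x; simp
  rw [thL_single, D4L_single, D4L_single, e, Finset.sum_insert (by simp),
    Finset.sum_image (fun x _ y _ h => Nat.succ_injective h), rm_th_zero, map_sum]
  congr 1
  refine Finset.sum_congr rfl ?_
  intro a _
  rw [thL_single]
  congr 1
  exact rm_th_succ a w

lemma D6L_th (t : Bool) {l : List (ℕ × Bool)} : D6L (th6L t (Finsupp.single l 1)) =
    Finsupp.single (l.map (Prod.map Nat.succ id)) 1 + th6L t (D6L (Finsupp.single l 1)) := by
  have e : Lb (th6 t l) = insert 0 ((Lb l).image Nat.succ) := by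
    unfold Lb th6; ext x; simp
  rw [th6L_single, D6L_single, D6L_single, e, Finset.sum_insert (by simp),
    Finset.sum_image (fun x _ y _ h => Nat.succ_injective h), rm6_th_zero, map_sum]
  congr 1
  refine Finset.sum_congr rfl ?_
  intro a _
  rw [th6L_single]
  congr 1
  exact rm6_th_succ t a l

/-- Linear extension of a property of single words. -/
lemma mem_of_single {α : Type*} {S : Set α} {M : Type*} [AddCommGroup M] [Module ℚ M]
    (L : (α →₀ ℚ) →ₗ[ℚ] M) (N : Submodule ℚ M) (h : ∀ w ∈ S, L (Finsupp.single w 1) ∈ N)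
    {x : α →₀ ℚ} (hx : x ∈ Finsupp.supported ℚ ℚ S) : L x ∈ N := by
  rw [Finsupp.mem_supported] at hx
  have e : x = ∑ w ∈ x.support, x w • Finsupp.single w (1 : ℚ) := by
    conv_lhs => rw [← Finsupp.sum_single x]
    unfold Finsupp.sum
    refine Finset.sum_congr rfl ?_
    intro w _
    rw [Finsupp.smul_single_one]
  rw [e, map_sum]
  refine Submodule.sum_mem _ ?_
  intro w hw
  rw [map_smul]
  exact Submodule.smul_mem _ _ (h w (hx hw))

lemma D4L_thL {d : ℕ} {x : List ℕ →₀ ℚ} (hx : x ∈ Finsupp.supported ℚ ℚ {w : List ℕ | IsC d w}) :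
    D4L (thL x) - (x + thL (D4L x)) ∈ rel4 d := by
  have := mem_of_single (D4L ∘ₗ thL - (LinearMap.id + thL ∘ₗ D4L)) (rel4 d)
    (S := {w : List ℕ | IsC d w}) ?_ hx
  · simpa using this
  · intro w hw
    simp only [LinearMap.sub_apply, LinearMap.comp_apply, LinearMap.add_apply, LinearMap.id_apply]
    rw [D4L_th]
    have h := rel4_relabel (d := d) hw Nat.succ_injective
    have h2 := Submodule.neg_mem _ h
    convert h2 using 1
    abel

lemma D6L_sL {d : ℕ} {y : List (ℕ × Bool) →₀ ℚ}
    (hy : y ∈ Finsupp.supported ℚ ℚ {l : List (ℕ × Bool) | IsA d l}) :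
    D6L (sL y) - ((2 : ℚ) • y + sL (D6L y)) ∈ rel6 d := by
  have := mem_of_single (D6L ∘ₗ sL - ((2 : ℚ) • LinearMap.id + sL ∘ₗ D6L)) (rel6 d)
    (S := {l : List (ℕ × Bool) | IsA d l}) ?_ hy
  · simpa using this
  · intro l hl
    simp only [LinearMap.sub_apply, LinearMap.comp_apply, LinearMap.add_apply, LinearMap.id_apply,
      LinearMap.smul_apply]
    unfold sL
    simp only [LinearMap.add_apply, map_add]
    rw [D6L_th, D6L_th]
    have h := rel6_relabel (d := d) hl Nat.succ_injective
    have h2 := Submodule.neg_mem _ (Submodule.smul_mem _ (2 : ℚ) h)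
    convert h2 using 1
    rw [two_smul, two_smul]
    abel

end Pool.Agent.ARD
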