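import Mathlib
import Pool.Agent.ARD.Del6

set_option autoImplicit false

namespace Pool.Agent.ARD

open Finset

lemma supp_of_single {α β : Type*} {S : Set α} {S' : Set β} (L : (α →₀ ℚ) →ₗ[ℚ] (β →₀ ℚ))
    (h : ∀ w ∈ S, L (Finsupp.single w 1) ∈ Finsupp.supported ℚ ℚ S')
    {x : α →₀ ℚ} (hx : x ∈ Finsupp.supported ℚ ℚ S) : L x ∈ Finsupp.supported ℚ ℚ S' :=
  mem_of_single L _ h hx

lemma thL_supp {d : ℕ} {x : List ℕ →₀ ℚ} (hx : x ∈ Finsupp.supported ℚ ℚ {w : List ℕ | IsC d w}) :
    thL x ∈ Finsupp.supported ℚ ℚ {w : List ℕ | IsC (d + 1) w} := by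
  refine supp_of_single thL ?_ hx
  intro w hw
  rw [thL_single]
  exact Finsupp.single_mem_supported _ _ (isC_th hw)

lemma D4L_supp {d : ℕ} {x : List ℕ →₀ ℚ}
    (hx : x ∈ Finsupp.supported ℚ ℚ {w : List ℕ | IsC (d + 1) w}) :
    D4L x ∈ Finsupp.supported ℚ ℚ {w : List ℕ | IsC d w} := by
  refine supp_of_single D4L ?_ hx
  intro w hw
  rw [D4L_single]
  refine Submodule.sum_mem _ ?_
  intro a ha
  exact Finsupp.single_mem_supported _ _ (isC_rm hw (by rwa [List.mem_toFinset] at ha))

lemma D4L_zero {x : List ℕ →₀ ℚ}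
    (hx : x ∈ Finsupp.supported ℚ ℚ {w : List ℕ | IsC 0 w}) : D4L x = 0 := by
  have := mem_of_single D4L (⊥ : Submodule ℚ (List ℕ →₀ ℚ)) ?_ hx
  · simpa using this
  · intro w hw
    have h0 : w = [] := List.length_eq_zero_iff.1 (by simpa using hw.1)
    rw [D4L_single, h0]
    simp

lemma phi_supp {d : ℕ} {x : List ℕ →₀ ℚ} (hx : x ∈ Finsupp.supported ℚ ℚ {w : List ℕ | IsC d w}) :
    phi x ∈ Finsupp.supported ℚ ℚ {l : List (ℕ × Bool) | IsA d l} := by
  refine supp_of_single phi ?_ hx
  intro w hw
  have h1 := IsA.phi (base_isA hw)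
  rw [base_fst] at h1
  rw [h1]
  refine Submodule.sum_mem _ ?_
  intro T _
  exact Finsupp.single_mem_supported _ _ (flip_isA (base_isA hw))

lemma flip_rm6 (a : ℕ) (T : Finset ℕ) (l : List (ℕ × Bool)) :
    rm6 a (flip T l) = flip T (rm6 a l) := by
  unfold rm6 flip
  rw [List.filter_map]
  rfl

lemma flip_insert_rm6 (a : ℕ) (T : Finset ℕ) (l : List (ℕ × Bool)) :
    flip (insert a T) (rm6 a l) = flip T (rm6 a l) := by
  unfold flip
  apply List.map_congr_left
  rintro ⟨x, y⟩ hx
  unfold rm6 at hx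
  rw [List.mem_filter] at hx
  have hxa : x ≠ a := by simpa using hx.2
  simp [hxa]

lemma Lb_flip (T : Finset ℕ) (l : List (ℕ × Bool)) : Lb (flip T l) = Lb l := by
  unfold Lb; rw [flip_fst]

lemma Lb_rm6 (a : ℕ) (l : List (ℕ × Bool)) : Lb (rm6 a l) = (Lb l).erase a := by
  ext x
  rw [Finset.mem_erase, mem_Lb, mem_Lb]
  unfold rm6
  constructor
  · rintro ⟨y, hy⟩
    rw [List.mem_filter] at hy
    exact ⟨by simpa using hy.2, y, hy.1⟩
  · rintro ⟨h1, y, hy⟩
    exact ⟨y, by rw [List.mem_filter]; exact ⟨hy, by simpa using h1⟩⟩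

lemma Val_rm6 {l : List (ℕ × Bool)} (h : Val l) (a : ℕ) : Val (rm6 a l) := by
  intro x hx
  unfold rm6 at hx ⊢
  rw [List.mem_filter] at hx
  have h2 : x.1 ≠ a := by simpa using hx.2
  rw [List.count_filter (by simpa using h2), List.count_filter (by simpa using h2)]
  exact h x hx.1

/-- `D6 φ = 2 φ D4` -/
lemma D6L_phi {d : ℕ} {x : List ℕ →₀ ℚ} (hx : x ∈ Finsupp.supported ℚ ℚ {w : List ℕ | IsC d w}) :
    D6L (phi x) = (2 : ℚ) • phi (D4L x) := by
  have := mem_of_single (D6L ∘ₗ phi - (2 : ℚ) • (phi ∘ₗ D4L))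
    (⊥ : Submodule ℚ (List (ℕ × Bool) →₀ ℚ)) (S := {w : List ℕ | IsC d w}) ?_ hx
  · rw [Submodule.mem_bot] at this
    simp only [LinearMap.sub_apply, LinearMap.comp_apply, LinearMap.smul_apply] at this
    exact sub_eq_zero.1 this
  · intro w hw
    rw [Submodule.mem_bot]
    simp only [LinearMap.sub_apply, LinearMap.comp_apply, LinearMap.smul_apply]
    rw [sub_eq_zero]
    have hb := base_isA hw
    have h1 := IsA.phi hb
    rw [base_fst] at h1
    set l := base w with hl
    have hLb : Lb l = w.toFinset := by unfold Lb; rw [hl, base_fst]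
    have e1 : D6L (phi (Finsupp.single w 1)) =
        ∑ a ∈ Lb l, ∑ T ∈ (Lb l).powerset, Finsupp.single (flip T (rm6 a l)) (1 : ℚ) := by
      rw [h1, map_sum, Finset.sum_comm]
      refine Finset.sum_congr rfl ?_
      intro T _
      rw [D6L_single, Lb_flip]
      refine Finset.sum_congr rfl ?_
      intro a _
      rw [flip_rm6]
    rw [e1, D4L_single, map_sum, Finset.smul_sum, ← hLb]
    refine Finset.sum_congr rfl ?_
    intro a ha
    have hv := Val_rm6 hb.2 a
    have h2 := phi_single hv (Val.two hv)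
    rw [rm6_fst, hl, base_fst] at h2
    rw [h2, ← hl, Lb_rm6]
    have hS : Lb l = insert a ((Lb l).erase a) := (Finset.insert_erase ha).symm
    conv_lhs => rw [hS]
    rw [Finset.sum_powerset_insert (Finset.notMem_erase a _)]
    simp only [flip_insert_rm6]
    rw [two_smul]

/-- `c y + θ D y ∈ R` implies `y ∈ R`. -/
lemma descend (n : ℕ) : ∀ (c : ℚ), 0 < c → ∀ y ∈ Finsupp.supported ℚ ℚ {w : List ℕ | IsC n w},
    c • y + thL (D4L y) ∈ rel4 n → y ∈ rel4 n := by
  induction n with
  | zero =>
    intro c hc y hy h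
    rw [D4L_zero hy, map_zero, add_zero] at h
    exact (Submodule.smul_mem_iff _ hc.ne').1 h
  | succ n ih =>
    intro c hc y hy h
    have h1 := D4L_rel4 h
    rw [map_add, map_smul] at h1
    have hz := D4L_supp hy
    have h2 := D4L_thL hz
    have h3 : (c + 1) • D4L y + thL (D4L (D4L y)) ∈ rel4 n := by
      have := Submodule.sub_mem _ h1 h2
      convert this using 1
      rw [add_smul, one_smul]
      abel
    have h4 := ih (c + 1) (by linarith) _ hz h3
    have h5 := thL_rel4 h4
    have h6 := Submodule.sub_mem _ h h5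
    rw [add_sub_cancel_right] at h6
    exact (Submodule.smul_mem_iff _ hc.ne').1 h6

/-- Move an isolated chord over one end point. -/
lemma move_one {d : ℕ} (A B : List ℕ) (x a : ℕ) (h : IsC d (A ++ x :: a :: a :: B)) :
    Finsupp.single (A ++ x :: a :: a :: B) (1 : ℚ) - Finsupp.single (A ++ a :: a :: x :: B) 1 ∈
      rel4 d := by
  have hax : a ≠ x := by
    rintro rfl
    have := h.2 a (by simp)
    simp [List.count_append] at this
    omega
  have hx := h.2 x (by simp)
  have hcount : A.count x + B.count x = 1 := by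
    simp [List.count_append, hax] at hx
    omega
  -- the other end of `x`
  have hmem : x ∈ A ∨ x ∈ B := by
    by_contra hno
    push Not at hno
    have h1 := List.count_eq_zero.2 hno.1
    have h2 := List.count_eq_zero.2 hno.2
    omega
  have key : ∀ c : List (Fin 3 ⊕ ℕ), IsCtx c →
      fill c (tt 0 1 a 0 2 x) = A ++ a :: x :: a :: B →
      fill c (tt 0 2 x 0 1 a) = A ++ x :: a :: a :: B →
      fill c (tt 0 1 a 1 2 x) = A ++ a :: a :: x :: B →
      fill c (tt 1 2 x 0 1 a) = A ++ a :: x :: a :: B →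
      Finsupp.single (A ++ x :: a :: a :: B) (1 : ℚ) - Finsupp.single (A ++ a :: a :: x :: B) 1 ∈
      rel4 d := by
    intro c hc e1 e2 e3 e4
    have hp : (A ++ x :: a :: a :: B).Perm (A ++ a :: x :: a :: B) :=
      List.Perm.append_left A (List.Perm.swap a x _)
    have h1 : fourT c 0 1 2 a x ∈ rel4 d := by
      refine Submodule.subset_span (Or.inr ⟨c, 0, 1, 2, a, x, by decide, by decide, by decide, hc,
        ?_, rfl⟩)
      rw [e1]
      exact (IsC_perm hp).1 h
    unfold fourT at h1
    rw [e1, e2, e3, e4] at h1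
    have h2 := Submodule.neg_mem _ h1
    convert h2 using 1
    abel
  have inl_none : ∀ l : List ℕ, (l.map (Sum.inr : ℕ → Fin 3 ⊕ ℕ)).filterMap Sum.getLeft? = [] := by
    intro l
    rw [List.filterMap_map]
    rw [List.filterMap_eq_nil_iff]
    intro y _
    rfl
  have fill_inr : ∀ (l : List ℕ) (f : Fin 3 → List ℕ),
      fill (l.map (Sum.inr : ℕ → Fin 3 ⊕ ℕ)) f = l := by
    intro l f
    unfold fill
    rw [List.flatMap_map]
    have : (fun a : ℕ => Sum.elim f (fun x => [x]) (Sum.inr a : Fin 3 ⊕ ℕ)) = fun a => [a] := rfl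
    rw [this]
    simp
  have fill_app : ∀ (c c' : List (Fin 3 ⊕ ℕ)) (f : Fin 3 → List ℕ),
      fill (c ++ c') f = fill c f ++ fill c' f := by
    intro c c' f; unfold fill; rw [List.flatMap_append]
  have fill_inl : ∀ (m : Fin 3) (c : List (Fin 3 ⊕ ℕ)) (f : Fin 3 → List ℕ),
      fill (Sum.inl m :: c) f = f m ++ fill c f := by
    intro m c f; unfold fill; rw [List.flatMap_cons]; rfl
  rcases hmem with hm | hm
  · obtain ⟨A1, A2, rfl⟩ := List.append_of_mem hm
    refine key (A1.map Sum.inr ++ Sum.inl 2 :: (A2.map Sum.inr ++ Sum.inl 0 :: Sum.inl 1 ::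
      B.map Sum.inr)) ?_ ?_ ?_ ?_ ?_
    · intro m
      rw [List.filterMap_append, inl_none, List.filterMap_cons_some (b := 2) (by rfl),
        List.filterMap_append, inl_none, List.filterMap_cons_some (b := 0) (by rfl),
        List.filterMap_cons_some (b := 1) (by rfl), inl_none]
      fin_cases m <;> rfl
    all_goals
      rw [fill_app, fill_inl, fill_app, fill_inl, fill_inl, fill_inr, fill_inr, fill_inr]
      simp [tt]
  · obtain ⟨B1, B2, rfl⟩ := List.append_of_mem hm
    refine key (A.map Sum.inr ++ Sum.inl 0 :: Sum.inl 1 :: (B1.map Sum.inr ++ Sum.inl 2 ::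
      B2.map Sum.inr)) ?_ ?_ ?_ ?_ ?_
    · intro m
      rw [List.filterMap_append, inl_none, List.filterMap_cons_some (b := 0) (by rfl),
        List.filterMap_cons_some (b := 1) (by rfl), List.filterMap_append, inl_none,
        List.filterMap_cons_some (b := 2) (by rfl), inl_none]
      fin_cases m <;> rfl
    all_goals
      rw [fill_app, fill_inl, fill_inl, fill_app, fill_inl, fill_inr, fill_inr, fill_inr]
      simp [tt]

/-- Move an isolated chord to the front. -/
lemma move_front {d : ℕ} (A B : List ℕ) (a : ℕ) (h : IsC d (A ++ a :: a :: B)) :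
    Finsupp.single (A ++ a :: a :: B) (1 : ℚ) - Finsupp.single (a :: a :: (A ++ B)) 1 ∈
      rel4 d := by
  induction A using List.reverseRecOn generalizing B with
  | nil => simp
  | append_singleton A x ih =>
    have e1 : A ++ [x] ++ a :: a :: B = A ++ x :: a :: a :: B := by simp
    rw [e1] at h ⊢
    have h1 := move_one A B x a h
    have hp : (A ++ x :: a :: a :: B).Perm (A ++ a :: a :: x :: B) := by
      apply List.Perm.append_left A
      exact (List.Perm.swap a x _).trans (List.Perm.cons a (List.Perm.swap a x _))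
    have h2 := ih (x :: B) ((IsC_perm hp).1 h)
    have h3 := Submodule.add_mem _ h1 h2
    rw [sub_add_sub_cancel] at h3
    have e2 : A ++ [x] ++ B = A ++ x :: B := by simp
    rw [e2]
    exact h3

/-- A diagram with an isolated chord is `θ y` modulo 4T. -/
lemma exists_th {d : ℕ} (A B : List ℕ) (a : ℕ) (h : IsC (d + 1) (A ++ a :: a :: B)) :
    ∃ v, IsC d v ∧ Finsupp.single (A ++ a :: a :: B) (1 : ℚ) - Finsupp.single (th v) 1 ∈
      rel4 (d + 1) := by
  have h1 := move_front A B a h
  have hp : (A ++ a :: a :: B).Perm (a :: a :: (A ++ B)) := by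
    rw [List.perm_iff_count]
    intro y
    simp only [List.count_append, List.count_cons]
    omega
  have hC : IsC (d + 1) (a :: a :: (A ++ B)) := (IsC_perm hp).1 h
  have haV : a ∉ A ++ B := by
    have := hC.2 a (by simp)
    rw [List.count_cons_self, List.count_cons_self] at this
    rw [← List.count_eq_zero]
    omega
  set V := A ++ B with hV
  set σ : ℕ → ℕ := fun z => if z = a then 0 else z + 1 with hσ
  have hσi : Function.Injective σ := by
    intro x y hxy
    simp only [hσ] at hxy
    split_ifs at hxy with h1 h2 h2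
    · rw [h1, h2]
    all_goals omega
  have hr := rel4_relabel hC hσi
  have e : (a :: a :: V).map σ = th V := by
    unfold th
    have h0 : σ a = 0 := by simp [hσ]
    rw [List.map_cons, List.map_cons, h0]
    congr 2
    apply List.map_congr_left
    intro x hx
    have hxa : x ≠ a := by rintro rfl; exact haV hx
    simp [hσ, hxa]
  rw [e] at hr
  refine ⟨V, ⟨?_, ?_⟩, ?_⟩
  · have := hC.1
    simp only [List.length_cons] at this
    omega
  · intro x hx
    have hxa : a ≠ x := by rintro rfl; exact haV hx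
    have := hC.2 x (by simp [hx])
    rw [List.count_cons_of_ne hxa, List.count_cons_of_ne hxa] at this
    exact this
  · have := Submodule.add_mem _ h1 hr
    rw [sub_add_sub_cancel] at this
    exact this

end Pool.Agent.ARD
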