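import Mathlib
import Pool.Agent.ARD.Front

set_option autoImplicit false

namespace Pool.Agent.ARD

open Finset

/-- Modulo 4T, an element of the span of the isolated diagrams is `θ y`. -/
lemma fi4_th {d : ℕ} {x : List ℕ →₀ ℚ} (hx : x ∈ rel4 (d + 1) ⊔ fi4 (d + 1)) :
    ∃ y ∈ Finsupp.supported ℚ ℚ {w : List ℕ | IsC d w}, x - thL y ∈ rel4 (d + 1) := by
  have hle : rel4 (d + 1) ⊔ fi4 (d + 1) ≤
      rel4 (d + 1) ⊔ (Finsupp.supported ℚ ℚ {w : List ℕ | IsC d w}).map thL := by
    refine sup_le le_sup_left ?_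
    unfold fi4
    rw [Submodule.span_le]
    rintro x ⟨A, B, a, h, rfl⟩
    obtain ⟨v, hv, h1⟩ := exists_th A B a h
    have h2 : Finsupp.single (th v) (1 : ℚ) ∈
        (Finsupp.supported ℚ ℚ {w : List ℕ | IsC d w}).map thL := by
      rw [Submodule.mem_map]
      exact ⟨Finsupp.single v 1, Finsupp.single_mem_supported _ _ hv, thL_single v 1⟩
    have h3 := Submodule.add_mem_sup h1 h2
    rw [sub_add_cancel] at h3
    exact h3
  have h := hle hx
  rw [Submodule.mem_sup] at h
  obtain ⟨r, hr, z, hz, rfl⟩ := h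
  rw [Submodule.mem_map] at hz
  obtain ⟨y, hy, rfl⟩ := hz
  exact ⟨y, hy, by rw [add_sub_cancel_right]; exact hr⟩

lemma fi4_zero : fi4 0 = ⊥ := by
  unfold fi4
  rw [Submodule.span_eq_bot]
  rintro x ⟨A, B, a, h, -⟩
  have := h.1
  simp at this

/-- If the kernels up to degree `d` consist of isolated diagrams, then `φ_d` is injective. -/
theorem inj_of_bar (d : ℕ) : (∀ k ≤ d, KerFI k) → Inj d := by
  induction d with
  | zero =>
    intro h x hx hphi
    have := h 0 le_rfl x hx hphi
    rwa [fi4_zero, sup_bot_eq] at this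
  | succ d ih =>
    intro h x hx hphi
    have hd : Inj d := ih (fun k hk => h k (by omega))
    obtain ⟨y, hy, hxy⟩ := fi4_th (h (d + 1) le_rfl x hx hphi)
    have h1 := phi_rel4 hxy
    rw [map_sub, phi_thL hy] at h1
    have h2 : sL (phi y) ∈ rel6 (d + 1) := by
      have := Submodule.sub_mem _ hphi h1
      rwa [sub_sub_cancel] at this
    have h3 := D6L_rel6 h2
    have h4 := D6L_sL (phi_supp hy)
    have hDy : thL (D4L y) ∈ Finsupp.supported ℚ ℚ {w : List ℕ | IsC d w} ∧
        phi (thL (D4L y)) = sL (phi (D4L y)) := by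
      rcases d with _ | d
      · rw [D4L_zero hy]
        simp
      · have hs := D4L_supp hy
        exact ⟨thL_supp hs, phi_thL hs⟩
    have h5 : phi (y + thL (D4L y)) ∈ rel6 d := by
      have h6 := Submodule.sub_mem _ h3 h4
      rw [sub_sub_cancel, D6L_phi hy, map_smul, ← smul_add] at h6
      have h7 := (Submodule.smul_mem_iff _ (two_ne_zero)).1 h6
      rw [map_add, hDy.2]
      exact h7
    have h8 := hd _ (Submodule.add_mem _ hy hDy.1) h5
    have h9 : y ∈ rel4 d := by
      refine descend d 1 one_pos y hy ?_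
      rwa [one_smul]
    have h10 := Submodule.add_mem _ hxy (thL_rel4 h9)
    rwa [sub_add_cancel] at h10

/-- Injectivity in degree `d + 1` gives injectivity in degree `d`. -/
theorem inj_mono (d : ℕ) (h : Inj (d + 1)) : Inj d := by
  intro x hx hphi
  have h1 := sL_rel6 hphi
  rw [← phi_thL hx] at h1
  have h2 := h _ (thL_supp hx) h1
  have h3 := D4L_rel4 h2
  have h4 := Submodule.sub_mem _ h3 (D4L_thL hx)
  rw [sub_sub_cancel] at h4
  refine descend d 1 one_pos x hx ?_
  rwa [one_smul]

theorem inj_iff (d : ℕ) : Inj d ↔ ∀ k ≤ d, KerFI k := by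
  refine ⟨fun h k hk x hx hphi => Submodule.mem_sup_left ?_, inj_of_bar d⟩
  have h1 : Inj k := by
    induction hk with
    | refl => exact h
    | step _ ih => exact ih (inj_mono _ h)
  exact h1 x hx hphi

end Pool.Agent.ARD
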